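import Pool.Agent.Lib.S3.Geo.Bridge

/-!
# The chart row `N = Σ w_o (slack of the row o)`

`chN a b w`: with positive weights `w` on all rows (the row at infinity included), all slacks of
the chart are in `[0, 1 / w_o]`, the chart is bounded and contains a point over every point of the
polyhedron.
-/

set_option autoImplicit false

namespace Pool.Agent.Lib.S3.Geo

open Pool.Agent.Lib.SHirsch (Gr GPos)

variable {m n : ℕ}

/-- The chart row. -/
noncomputable def chN (a : Fin m → Fin n → ℝ) (b : Fin m → ℝ) (w : Option (Fin m) → ℝ) :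
    Fin (n + 1) → ℝ := -∑ o, w o • Gr a b o

theorem chN_dot (a : Fin m → Fin n → ℝ) (b : Fin m → ℝ) (w : Option (Fin m) → ℝ)
    (y : Fin (n + 1) → ℝ) : chN a b w ⬝ᵥ y = ∑ o, w o * -(Gr a b o ⬝ᵥ y) := by
  unfold chN
  rw [neg_dotProduct, sum_dotProduct, ← Finset.sum_neg_distrib]
  refine Finset.sum_congr rfl fun o _ => ?_
  rw [smul_dotProduct, smul_eq_mul]
  ring

/-- The rows of the cone at the homogeneous point over a point of the polyhedron. -/
theorem gr_hom_le (a : Fin m → Fin n → ℝ) (b : Fin m → ℝ) {x : Fin n → ℝ}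
    (hx : x ∈ SHirsch.Pol a b ∅ Finset.univ) (o : Option (Fin m)) :
    Gr a b o ⬝ᵥ hom x ≤ 0 := by
  match o with
  | none =>
    rw [gr_none]
    show -((Fin.cons 1 x : Fin (n + 1) → ℝ) 0) ≤ 0
    rw [Fin.cons_zero]
    norm_num
  | some i =>
    rw [gr_some]
    have h1 := hx.2 i (Finset.mem_univ i)
    have h2 : (fun j : Fin n => hom x j.succ) = x := by
      funext j
      unfold hom
      rw [Fin.cons_succ]
    have h3 : hom x 0 = 1 := by
      unfold hom
      rw [Fin.cons_zero]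
    rw [h2, h3]
    linarith

/-- The chart row is positive on the polyhedron. -/
theorem chN_pos (a : Fin m → Fin n → ℝ) (b : Fin m → ℝ) {w : Option (Fin m) → ℝ}
    (hw : ∀ o, 0 < w o) {x : Fin n → ℝ} (hx : x ∈ SHirsch.Pol a b ∅ Finset.univ) :
    0 < chN a b w ⬝ᵥ hom x := by
  rw [chN_dot]
  have hnn : ∀ o ∈ (Finset.univ : Finset (Option (Fin m))), 0 ≤ w o * -(Gr a b o ⬝ᵥ hom x) :=
    fun o _ => mul_nonneg (hw o).le (neg_nonneg.2 (gr_hom_le a b hx o))
  refine lt_of_lt_of_le ?_ (Finset.single_le_sum hnn (Finset.mem_univ none))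
  rw [gr_none]
  have h3 : hom x 0 = 1 := by
    unfold hom
    rw [Fin.cons_zero]
  rw [h3]
  have := hw none
  linarith

/-- All slacks of the chart are in `[0, 1 / w_o]`. -/
theorem slack_chart {a : Fin m → Fin n → ℝ} {b : Fin m → ℝ} {w : Option (Fin m) → ℝ}
    (hw : ∀ o, 0 < w o) {y : Fin (n + 1) → ℝ} (hy : y ∈ Chart a b (chN a b w))
    (o : Option (Fin m)) : 0 ≤ -(Gr a b o ⬝ᵥ y) ∧ w o * -(Gr a b o ⬝ᵥ y) ≤ 1 := by
  have hle : ∀ o, Gr a b o ⬝ᵥ y ≤ 0 := fun o => hy.2 (some o) (by simp [chS])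
  have hnn : ∀ o ∈ (Finset.univ : Finset (Option (Fin m))), 0 ≤ w o * -(Gr a b o ⬝ᵥ y) :=
    fun o _ => mul_nonneg (hw o).le (neg_nonneg.2 (hle o))
  have h1 : chN a b w ⬝ᵥ y = 1 := hy.1 none (Finset.mem_singleton_self _)
  rw [chN_dot] at h1
  refine ⟨neg_nonneg.2 (hle o), ?_⟩
  rw [← h1]
  exact Finset.single_le_sum hnn (Finset.mem_univ o)

/-- The chart is bounded. -/
theorem chart_bounded (hnm : n ≤ m) {a : Fin m → Fin n → ℝ} {b : Fin m → ℝ}
    {w : Option (Fin m) → ℝ} (hw : ∀ o, 0 < w o)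
    (hG : GP (chA a b (chN a b w)) (chB m) {none}) :
    Bornology.IsBounded (Chart a b (chN a b w)) := by
  classical
  -- `n + 1` rows of the cone
  obtain ⟨J, hJ⟩ : ∃ J : Finset (Option (Fin m)), J.card = n + 1 := by
    obtain ⟨J, -, hJ⟩ := Finset.exists_subset_card_eq
      (s := (Finset.univ : Finset (Option (Fin m)))) (n := n + 1) (by
        rw [Finset.card_univ, Fintype.card_option, Fintype.card_fin]
        omega)
    exact ⟨J, hJ⟩
  let J' : Finset (Option (Option (Fin m))) := J.map ⟨some, Option.some_injective _⟩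
  have hJ' : J'.card = n + 1 := by rw [Finset.card_map, hJ]
  let L : (Fin (n + 1) → ℝ) →ₗ[ℝ] (J → ℝ) :=
    { toFun := fun y o => Gr a b o ⬝ᵥ y
      map_add' := fun y z => by
        funext o
        rw [Pi.add_apply, dotProduct_add]
      map_smul' := fun c y => by
        funext o
        rw [Pi.smul_apply, dotProduct_smul]
        rfl }
  have hker : LinearMap.ker L = ⊥ := by
    rw [LinearMap.ker_eq_bot']
    intro y hy
    refine eq_of_tight hG hJ' (y := 0) fun o ho => ?_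
    obtain ⟨o', ho', rfl⟩ := Finset.mem_map.1 ho
    rw [dotProduct_zero]
    exact congrFun hy ⟨o', ho'⟩
  obtain ⟨K, -, hK⟩ := L.exists_antilipschitzWith hker
  -- the image is bounded
  obtain ⟨W, hW⟩ : ∃ W : ℝ, ∀ o : Option (Fin m), 1 / w o ≤ W := by
    obtain ⟨W, hW⟩ := (Set.finite_range fun o : Option (Fin m) => 1 / w o).bddAbove
    exact ⟨W, fun o => hW ⟨o, rfl⟩⟩
  have hW0 : 0 ≤ W := (one_div_nonneg.2 (hw none).le).trans (hW none)
  rw [isBounded_iff_forall_norm_le]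
  refine ⟨K * W, fun y hy => ?_⟩
  have h1 : ‖y‖ ≤ K * ‖L y‖ := by
    have := hK.le_mul_dist y 0
    rwa [dist_zero_right, map_zero, dist_zero_right] at this
  refine h1.trans (mul_le_mul_of_nonneg_left ?_ K.2)
  rw [pi_norm_le_iff_of_nonneg hW0]
  intro o
  obtain ⟨h2, h3⟩ := slack_chart hw hy (o : Option (Fin m))
  have h4 : -(Gr a b o ⬝ᵥ y) ≤ 1 / w o := by
    rw [le_div_iff₀ (hw o), mul_comm]
    exact h3
  show ‖Gr a b o ⬝ᵥ y‖ ≤ W
  rw [Real.norm_eq_abs, ← abs_neg, abs_of_nonneg h2]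
  exact h4.trans (hW o)

end Pool.Agent.Lib.S3.Geo
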