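import Pool.Agent.Lib.S3.Geo.Conn

/-!
# Face: two vertices with many common tight rows are joined by a short walk

`reach_common`: if two vertices of `Pol T S` have at least `n - d` common tight rows, they are
joined by a walk of length at most `(number of rows) ^ d` (the walk stays in the common face; its length is at
most the number of vertices of the face).
-/

set_option autoImplicit false

namespace Pool.Agent.Lib.S3.Geo

variable {ι : Type} [Fintype ι] [DecidableEq ι] {n : ℕ}

/-- Walks of a polyhedron with the same rows and fewer equalities. -/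
theorem reach_of_sub {a : ι → Fin n → ℝ} {b : ι → ℝ}
    {T S T' S' : Finset ι} (hU : T' ∪ S' = T ∪ S)
    (hP : Pol a b T' S' ⊆ Pol a b T S) {r : ℕ} {x y : Fin n → ℝ}
    (h : Reach a b T' S' r x y) : Reach a b T S r x y := by
  have hv : ∀ {z : Fin n → ℝ}, Vert a b T' S' z → Vert a b T S z := by
    intro z hz
    refine ⟨hP hz.1, ?_⟩
    rw [← hU]
    exact hz.2
  induction r generalizing y with
  | zero => exact ⟨hv h.1, h.2⟩
  | succ r ih =>
    obtain ⟨z, h1, h2, h3⟩ := h
    refine ⟨z, ih h1, hv h2, ?_⟩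
    rcases h3 with h3 | h3
    · exact Or.inl h3
    · refine Or.inr ⟨h3.1, ?_⟩
      have := h3.2
      rwa [hU] at this

/-- The union of the rows of the face. -/
private theorem union_eq {T S K : Finset ι} (hK : K ⊆ T ∪ S) :
    (T ∪ K) ∪ (S \ K) = T ∪ S := by
  ext j
  simp only [Finset.mem_union, Finset.mem_sdiff]
  constructor
  · rintro ((h | h) | h)
    · exact Or.inl h
    · exact Finset.mem_union.1 (hK h)
    · exact Or.inr h.1
  · rintro (h | h)
    · exact Or.inl (Or.inl h)
    · by_cases hj : j ∈ K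
      · exact Or.inl (Or.inr hj)
      · exact Or.inr ⟨h, hj⟩

private theorem pol_sub {a : ι → Fin n → ℝ} {b : ι → ℝ}
    {T S K : Finset ι} : Pol a b (T ∪ K) (S \ K) ⊆ Pol a b T S := by
  intro x hx
  refine ⟨fun i hi => hx.1 i (Finset.mem_union_left _ hi), fun i hi => ?_⟩
  by_cases hiK : i ∈ K
  · exact (hx.1 i (Finset.mem_union_right _ hiK)).le
  · exact hx.2 i (Finset.mem_sdiff.2 ⟨hi, hiK⟩)

/-- A vertex whose tight rows contain `K` is a vertex of the face of `K`. -/
theorem vert_common {a : ι → Fin n → ℝ} {b : ι → ℝ}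
    {T S K : Finset ι} {x : Fin n → ℝ} (h : Vert a b T S x)
    (hK : K ⊆ tt a b (T ∪ S) x) : Vert a b (T ∪ K) (S \ K) x := by
  have hK' : K ⊆ T ∪ S := fun i hi => (mem_tt.1 (hK hi)).1
  refine ⟨⟨fun i hi => ?_, fun i hi => ?_⟩, ?_⟩
  · rcases Finset.mem_union.1 hi with hi | hi
    · exact h.1.1 i hi
    · exact (mem_tt.1 (hK hi)).2
  · exact h.1.2 i (Finset.mem_sdiff.1 hi).1
  · rw [union_eq hK']
    exact h.2

/-- The vertices of a polyhedron are finitely many. -/
theorem vert_finite {a : ι → Fin n → ℝ} {b : ι → ℝ} {T0 : Finset ι} (hG : GP a b T0)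
    (T S : Finset ι) : {x : Fin n → ℝ | Vert a b T S x}.Finite := by
  refine Set.Finite.of_finite_image (f := fun x => tt a b (T ∪ S) x) (Set.toFinite _) ?_
  intro x hx y hy hxy
  have hx' : Vert a b T S x := hx
  have hxy' : tt a b (T ∪ S) x = tt a b (T ∪ S) y := hxy
  refine eq_of_tight hG hx'.2 ?_
  intro i hi
  have hi2 := hi
  rw [hxy'] at hi2
  rw [mem_tt] at hi hi2
  rw [hi.2, hi2.2]

/-- A walk can be shortened to the number of vertices. -/
theorem reach_card {a : ι → Fin n → ℝ} {b : ι → ℝ} {T0 : Finset ι} (hG : GP a b T0)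
    {T S : Finset ι} (hT0 : T0 ⊆ T) {u v : Fin n → ℝ} (hu : Vert a b T S u) (hv : Vert a b T S v) :
    Reach a b T S (vert_finite hG T S).toFinset.card u v := by
  classical
  set F := (vert_finite hG T S).toFinset with hF
  have hmF : ∀ x, x ∈ F ↔ Vert a b T S x := by
    intro x
    rw [hF, Set.Finite.mem_toFinset]
    rfl
  -- the vertices that are reached from `u` in at most `k` steps
  let R : ℕ → Finset (Fin n → ℝ) := fun k => F.filter (fun x => Reach a b T S k u x)
  have hRm : ∀ k, R k ⊆ R (k + 1) := by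
    intro k x hx
    rw [Finset.mem_filter] at hx ⊢
    exact ⟨hx.1, reach_mono (Nat.le_succ k) hx.2⟩
  have hR0 : u ∈ R 0 := by
    rw [Finset.mem_filter]
    exact ⟨(hmF u).2 hu, hu, rfl⟩
  have hstab : ∀ k, R k = R (k + 1) → ∀ l, R (k + l) = R k := by
    intro k hk l
    induction l with
    | zero => rfl
    | succ l ih =>
      apply le_antisymm
      · intro x hx
        rw [Finset.mem_filter] at hx
        obtain ⟨hxF, z, hz1, hz2, hz3⟩ := hx
        have hzR : z ∈ R (k + l) := by
          rw [Finset.mem_filter]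
          exact ⟨(hmF z).2 (reach_vert hz1), hz1⟩
        rw [ih] at hzR
        rw [Finset.mem_filter] at hzR
        rw [hk, Finset.mem_filter]
        exact ⟨hxF, z, hzR.2, hz2, hz3⟩
      · intro x hx
        rw [Finset.mem_filter] at hx ⊢
        exact ⟨hx.1, reach_mono (by omega) hx.2⟩
  obtain ⟨r, hr⟩ := conn hG hT0 hu hv
  -- either the sets grow up to `F.card`, or they stabilise before
  have hgrow : ∀ k, (∀ j < k, R j ≠ R (j + 1)) → k + 1 ≤ (R k).card := by
    intro k
    induction k with
    | zero => intro _; exact Finset.card_pos.2 ⟨u, hR0⟩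
    | succ k ih =>
      intro h
      have h1 := ih (fun j hj => h j (by omega))
      have h2 : R k ⊂ R (k + 1) :=
        Finset.ssubset_iff_subset_ne.2 ⟨hRm k, h k (Nat.lt_succ_self k)⟩
      have h3 := Finset.card_lt_card h2
      omega
  have hex : ∃ k, k < F.card ∧ R k = R (k + 1) := by
    by_contra hcon
    push Not at hcon
    have h1 := hgrow F.card hcon
    have h2 : (R F.card).card ≤ F.card := Finset.card_le_card (Finset.filter_subset _ _)
    omega
  obtain ⟨k, hkF, hk⟩ := hex
  have h1 := hstab k hk r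
  have h2 : v ∈ R (k + r) := by
    rw [Finset.mem_filter]
    exact ⟨(hmF v).2 hv, reach_mono (by omega) hr⟩
  rw [h1, Finset.mem_filter] at h2
  exact reach_mono hkF.le h2.2

/-- The number of vertices of a face of small dimension. -/
theorem card_vert_face {a : ι → Fin n → ℝ} {b : ι → ℝ} {T0 : Finset ι} (hG : GP a b T0)
    {T S : Finset ι} {d : ℕ} (hT : n ≤ T.card + d) (hTn : T.card ≤ n) (hm : 1 ≤ Fintype.card ι) :
    (vert_finite hG T S).toFinset.card ≤ Fintype.card ι ^ d := by
  classical
  have h1 : (vert_finite hG T S).toFinset.card ≤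
      (Finset.powersetCard (n - T.card) (Finset.univ : Finset ι)).card := by
    refine Finset.card_le_card_of_injOn (fun x => tt a b (T ∪ S) x \ T) ?_ ?_
    · intro x hx
      rw [Finset.mem_coe, Set.Finite.mem_toFinset] at hx
      have hx' : Vert a b T S x := hx
      rw [Finset.mem_coe, Finset.mem_powersetCard]
      refine ⟨Finset.subset_univ _, ?_⟩
      rw [Finset.card_sdiff_of_subset, hx'.2]
      intro i hi
      rw [mem_tt]
      exact ⟨Finset.mem_union_left _ hi, hx'.1.1 i hi⟩
    · intro x hx y hy hxy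
      rw [Finset.mem_coe, Set.Finite.mem_toFinset] at hx hy
      have hx' : Vert a b T S x := hx
      have hy' : Vert a b T S y := hy
      have hxy' : tt a b (T ∪ S) x \ T = tt a b (T ∪ S) y \ T := hxy
      refine eq_of_tight hG hx'.2 ?_
      intro i hi
      have hi2 := (mem_tt.1 hi).2
      by_cases hiT : i ∈ T
      · rw [hx'.1.1 i hiT, hy'.1.1 i hiT]
      · have h3 : i ∈ tt a b (T ∪ S) x \ T := Finset.mem_sdiff.2 ⟨hi, hiT⟩
        rw [hxy'] at h3
        rw [hi2, (mem_tt.1 (Finset.mem_sdiff.1 h3).1).2]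
  rw [Finset.card_powersetCard, Finset.card_univ, ] at h1
  calc _ ≤ (Fintype.card ι).choose (n - T.card) := h1
    _ ≤ Fintype.card ι ^ (n - T.card) := Nat.choose_le_pow _ _
    _ ≤ Fintype.card ι ^ d := Nat.pow_le_pow_right hm (by omega)

/-- Two vertices with at least `n - d` common tight rows are joined by a walk of length at most
`(number of rows) ^ d`. -/
theorem reach_common {a : ι → Fin n → ℝ} {b : ι → ℝ} {T0 : Finset ι} (hG : GP a b T0)
    {T S : Finset ι} (hT0 : T0 ⊆ T) {u v : Fin n → ℝ} (hu : Vert a b T S u) (hv : Vert a b T S v) {d : ℕ}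
    (h : n ≤ (tt a b (T ∪ S) u ∩ tt a b (T ∪ S) v).card + d) :
    Reach a b T S (Fintype.card ι ^ d) u v := by
  classical
  rcases Nat.eq_zero_or_pos (Fintype.card ι) with hm | hm
  · haveI : IsEmpty ι := Fintype.card_eq_zero_iff.1 hm
    have hn : n = 0 := by
      have := hu.2
      rw [Finset.eq_empty_of_isEmpty (tt a b (T ∪ S) u), Finset.card_empty] at this
      exact this.symm
    subst hn
    exact reach_mono (Nat.zero_le _) (⟨hu, Subsingleton.elim _ _⟩ : Reach a b T S 0 u v)
  set K := tt a b (T ∪ S) u ∩ tt a b (T ∪ S) v with hK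
  have hKu : K ⊆ tt a b (T ∪ S) u := Finset.inter_subset_left
  have hKv : K ⊆ tt a b (T ∪ S) v := Finset.inter_subset_right
  have hKS : K ⊆ T ∪ S := fun i hi => (mem_tt.1 (hKu hi)).1
  have hTK : T ⊆ K := by
    intro i hi
    rw [hK, Finset.mem_inter, mem_tt, mem_tt]
    exact ⟨⟨Finset.mem_union_left _ hi, hu.1.1 i hi⟩, ⟨Finset.mem_union_left _ hi, hv.1.1 i hi⟩⟩
  have hTK' : T ∪ K = K := Finset.union_eq_right.2 hTK
  have hu' := vert_common hu hKu
  have hv' := vert_common hv hKv
  have h1 := reach_card hG (hT0.trans Finset.subset_union_left) hu' hv'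
  refine reach_of_sub (union_eq hKS) pol_sub (reach_mono ?_ h1)
  refine card_vert_face hG ?_ ?_ hm
  · rw [hTK']; exact h
  · rw [hTK']
    calc K.card ≤ (tt a b (T ∪ S) u).card := Finset.card_le_card hKu
      _ = n := hu.2

end Pool.Agent.Lib.S3.Geo
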