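import Pool.Agent.Lib.S3.Geo.Opt

/-!
# Walks off a facet

`ReachQ Q`: walks all of whose vertices satisfy `Q`.
`simplex_walk`: in a bounded polyhedron, a walk from a vertex to an optimal vertex along which the
objective never drops below its first value.
`detour`: in a bounded polyhedron, a walk of length `r` between two vertices that are not on the
facet `o` can be replaced by a walk of length `r * (2 (number of rows)^2 + 1)` off the facet `o`.
-/

set_option autoImplicit false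

namespace Pool.Agent.Lib.S3.Geo

variable {ι : Type} [DecidableEq ι] {n : ℕ}

/-- Walks all of whose vertices satisfy `Q`. -/
def ReachQ (Q : (Fin n → ℝ) → Prop) (a : ι → Fin n → ℝ) (b : ι → ℝ) (T S : Finset ι) :
    ℕ → (Fin n → ℝ) → (Fin n → ℝ) → Prop
  | 0, x, y => Vert a b T S x ∧ Q x ∧ x = y
  | r + 1, x, y => ∃ z, ReachQ Q a b T S r x z ∧ Vert a b T S y ∧ Q y ∧
      (z = y ∨ Adj a b T S z y)

theorem reachQ_vert {Q : (Fin n → ℝ) → Prop} {a : ι → Fin n → ℝ} {b : ι → ℝ} {T S : Finset ι}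
    {r : ℕ} {x y : Fin n → ℝ} (h : ReachQ Q a b T S r x y) : Vert a b T S y ∧ Q y := by
  cases r with
  | zero =>
    obtain ⟨h1, h2, h3⟩ := h
    subst h3
    exact ⟨h1, h2⟩
  | succ r =>
    obtain ⟨z, _, h2, h3, _⟩ := h
    exact ⟨h2, h3⟩

theorem reachQ_vert_left {Q : (Fin n → ℝ) → Prop} {a : ι → Fin n → ℝ} {b : ι → ℝ}
    {T S : Finset ι} {r : ℕ} {x y : Fin n → ℝ} (h : ReachQ Q a b T S r x y) :
    Vert a b T S x ∧ Q x := by
  induction r generalizing y with
  | zero => exact ⟨h.1, h.2.1⟩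
  | succ r ih =>
    obtain ⟨z, h1, _⟩ := h
    exact ih h1

theorem reachQ_mono {Q : (Fin n → ℝ) → Prop} {a : ι → Fin n → ℝ} {b : ι → ℝ} {T S : Finset ι}
    {r r' : ℕ} (hr : r ≤ r') {x y : Fin n → ℝ} (h : ReachQ Q a b T S r x y) :
    ReachQ Q a b T S r' x y := by
  induction hr with
  | refl => exact h
  | step _ ih => exact ⟨y, ih, (reachQ_vert ih).1, (reachQ_vert ih).2, Or.inl rfl⟩

theorem reachQ_trans {Q : (Fin n → ℝ) → Prop} {a : ι → Fin n → ℝ} {b : ι → ℝ}
    {T S : Finset ι} {r r' : ℕ} {x y z : Fin n → ℝ} (h : ReachQ Q a b T S r x y)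
    (h' : ReachQ Q a b T S r' y z) : ReachQ Q a b T S (r + r') x z := by
  induction r' generalizing z with
  | zero =>
    obtain ⟨_, _, h2⟩ := h'
    subst h2
    exact h
  | succ r' ih =>
    obtain ⟨w, h1, h2⟩ := h'
    exact ⟨w, ih h1, h2⟩

theorem adj_symm' {a : ι → Fin n → ℝ} {b : ι → ℝ} {T S : Finset ι} {x y : Fin n → ℝ}
    (h : Adj a b T S x y) : Adj a b T S y x := by
  refine ⟨fun e => h.1 e.symm, ?_⟩
  have := h.2
  rwa [Finset.inter_comm] at this

theorem reachQ_symm {Q : (Fin n → ℝ) → Prop} {a : ι → Fin n → ℝ} {b : ι → ℝ} {T S : Finset ι}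
    {r : ℕ} {x y : Fin n → ℝ} (h : ReachQ Q a b T S r x y) : ReachQ Q a b T S r y x := by
  induction r generalizing y with
  | zero =>
    obtain ⟨h1, h2, h3⟩ := h
    subst h3
    exact ⟨h1, h2, rfl⟩
  | succ r ih =>
    obtain ⟨z, h1, h2, h3, h4⟩ := h
    have hz := reachQ_vert h1
    have h5 : ReachQ Q a b T S 1 y z := by
      refine ⟨y, ⟨h2, h3, rfl⟩, hz.1, hz.2, ?_⟩
      rcases h4 with h4 | h4
      · exact Or.inl h4.symm
      · exact Or.inr (adj_symm' h4)
    have h6 := reachQ_trans h5 (ih h1)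
    rwa [Nat.add_comm] at h6

theorem reachQ_weaken {Q Q' : (Fin n → ℝ) → Prop} (hQ : ∀ x, Q x → Q' x) {a : ι → Fin n → ℝ}
    {b : ι → ℝ} {T S : Finset ι} {r : ℕ} {x y : Fin n → ℝ} (h : ReachQ Q a b T S r x y) :
    ReachQ Q' a b T S r x y := by
  induction r generalizing y with
  | zero => exact ⟨h.1, hQ _ h.2.1, h.2.2⟩
  | succ r ih =>
    obtain ⟨z, h1, h2, h3, h4⟩ := h
    exact ⟨z, ih h1, h2, hQ _ h3, h4⟩

theorem reach_of_reachQ {Q : (Fin n → ℝ) → Prop} {a : ι → Fin n → ℝ} {b : ι → ℝ}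
    {T S : Finset ι} {r : ℕ} {x y : Fin n → ℝ} (h : ReachQ Q a b T S r x y) :
    Reach a b T S r x y := by
  induction r generalizing y with
  | zero => exact ⟨h.1, h.2.2⟩
  | succ r ih =>
    obtain ⟨z, h1, h2, _, h4⟩ := h
    exact ⟨z, ih h1, h2, h4⟩

/-- Walks of a polyhedron with the same rows and fewer equalities. -/
theorem reachQ_of_sub {Q : (Fin n → ℝ) → Prop} {a : ι → Fin n → ℝ} {b : ι → ℝ}
    {T S T' S' : Finset ι} (hU : T' ∪ S' = T ∪ S)
    (hP : Pol a b T' S' ⊆ Pol a b T S) {r : ℕ} {x y : Fin n → ℝ}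
    (h : ReachQ Q a b T' S' r x y) : ReachQ Q a b T S r x y := by
  have hv : ∀ {z : Fin n → ℝ}, Vert a b T' S' z → Vert a b T S z := by
    intro z hz
    refine ⟨hP hz.1, ?_⟩
    rw [← hU]
    exact hz.2
  induction r generalizing y with
  | zero => exact ⟨hv h.1, h.2.1, h.2.2⟩
  | succ r ih =>
    obtain ⟨z, h1, h2, h3, h4⟩ := h
    refine ⟨z, ih h1, hv h2, h3, ?_⟩
    rcases h4 with h4 | h4
    · exact Or.inl h4
    · refine Or.inr ⟨h4.1, ?_⟩
      have := h4.2
      rwa [hU] at this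

variable [Fintype ι]

omit [DecidableEq ι] [Fintype ι] in
/-- A ray in a bounded polyhedron leaves it. -/
theorem ray_leaves {a : ι → Fin n → ℝ} {b : ι → ℝ} {T S : Finset ι}
    (hbd : Bornology.IsBounded (Pol a b T S)) {x u : Fin n → ℝ} (hu : u ≠ 0) :
    ∃ τ : ℝ, 0 < τ ∧ x + τ • u ∉ Pol a b T S := by
  by_contra hcon
  push Not at hcon
  obtain ⟨R, hR⟩ := hbd.exists_norm_le
  have hun : 0 < ‖u‖ := norm_pos_iff.2 hu
  have hR0 : 0 ≤ R := (norm_nonneg _).trans (hR _ (hcon 1 one_pos))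
  have h0 : 0 ≤ ‖x‖ := norm_nonneg x
  have hpos : 0 < (R + ‖x‖ + 1) / ‖u‖ := by positivity
  have h1 := hR _ (hcon _ hpos)
  have h2 : ‖((R + ‖x‖ + 1) / ‖u‖) • u‖ = R + ‖x‖ + 1 := by
    rw [norm_smul, Real.norm_eq_abs, abs_of_pos hpos, div_mul_cancel₀ _ hun.ne']
  have h4 : ‖((R + ‖x‖ + 1) / ‖u‖) • u‖ ≤ ‖x + ((R + ‖x‖ + 1) / ‖u‖) • u‖ + ‖x‖ := by
    have := norm_sub_le (x + ((R + ‖x‖ + 1) / ‖u‖) • u) x
    rwa [add_sub_cancel_left] at this
  linarith

/-- An improving edge at a vertex that is not optimal. -/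
theorem improve {a : ι → Fin n → ℝ} {b : ι → ℝ} {T0 : Finset ι} (hG : GP a b T0)
    {T S : Finset ι} (hT0 : T0 ⊆ T) (hbd : Bornology.IsBounded (Pol a b T S))
    {c w : Fin n → ℝ} (hw : Vert a b T S w) (hno : ¬ IsOpt a b T S c w) :
    ∃ z, Vert a b T S z ∧ Adj a b T S w z ∧ c ⬝ᵥ w < c ⬝ᵥ z := by
  obtain ⟨l, hl⟩ := exists_mult hG hw.2 c
  obtain ⟨i, hi, hiT, hli⟩ : ∃ i ∈ tt a b (T ∪ S) w, i ∉ T ∧ l i < 0 := by
    by_contra hcon
    push Not at hcon
    refine hno (opt_of_mult hl hw.1 (fun i hi => (mem_tt.1 hi).2)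
      (fun i hi => Finset.mem_union.1 (mem_tt.1 hi).1) hcon)
  obtain ⟨r, hr1, hr0⟩ := dir_exists hG hw.2 hi
  have hcr : c ⬝ᵥ r = -l i := by
    unfold IsMult at hl
    rw [hl, sum_dotProduct, Finset.sum_eq_single_of_mem i hi]
    · rw [smul_dotProduct, hr1, smul_eq_mul]
      ring
    · intro j hj hji
      rw [smul_dotProduct, hr0 j hj hji, smul_zero]
  have hrne : r ≠ 0 := by
    rintro rfl
    rw [dotProduct_zero] at hr1
    linarith
  obtain ⟨τ, hτ, hout⟩ := ray_leaves hbd hrne (x := w)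
  obtain ⟨s, hs, -, hv, hadj, -⟩ := exit_lemma hG hT0 hw hi hiT hr1 hr0 hτ hout
  refine ⟨_, hv, hadj, ?_⟩
  rw [dotProduct_add, dotProduct_smul, hcr, smul_eq_mul]
  have : 0 < s * -l i := mul_pos hs (by linarith)
  linarith

/-- The simplex walk: the objective never drops below its first value. -/
theorem simplex_walk {a : ι → Fin n → ℝ} {b : ι → ℝ} {T0 : Finset ι} (hG : GP a b T0)
    {T S : Finset ι} (hT0 : T0 ⊆ T) (hbd : Bornology.IsBounded (Pol a b T S))
    (c : Fin n → ℝ) {w : Fin n → ℝ} (hw : Vert a b T S w) :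
    ∃ x, IsOpt a b T S c x ∧
      ReachQ (fun z => c ⬝ᵥ w ≤ c ⬝ᵥ z) a b T S (vert_finite hG T S).toFinset.card w x := by
  classical
  set F := (vert_finite hG T S).toFinset with hF
  have hmF : ∀ x, x ∈ F ↔ Vert a b T S x := by
    intro x
    rw [hF, Set.Finite.mem_toFinset]
    rfl
  have key : ∀ (N : ℕ) (z : Fin n → ℝ), Vert a b T S z → c ⬝ᵥ w ≤ c ⬝ᵥ z →
      (F.filter (fun y => c ⬝ᵥ z < c ⬝ᵥ y)).card = N →
      ∃ x, IsOpt a b T S c x ∧ ReachQ (fun z => c ⬝ᵥ w ≤ c ⬝ᵥ z) a b T S N z x := by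
    intro N
    induction N using Nat.strong_induction_on with
    | _ N ih =>
      intro z hz hwz hN
      by_cases hopt : IsOpt a b T S c z
      · exact ⟨z, hopt, reachQ_mono (Nat.zero_le _)
          (⟨hz, hwz, rfl⟩ : ReachQ (fun z => c ⬝ᵥ w ≤ c ⬝ᵥ z) a b T S 0 z z)⟩
      · obtain ⟨y, hy, hadj, hcy⟩ := improve hG hT0 hbd hz hopt
        have hlt : (F.filter (fun x => c ⬝ᵥ y < c ⬝ᵥ x)).card < N := by
          rw [← hN]
          refine Finset.card_lt_card ?_
          rw [Finset.ssubset_iff_of_subset]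
          · refine ⟨y, ?_, ?_⟩
            · rw [Finset.mem_filter]
              exact ⟨(hmF y).2 hy, hcy⟩
            · rw [Finset.mem_filter]
              intro h
              exact absurd h.2 (lt_irrefl _)
          · intro x hx
            rw [Finset.mem_filter] at hx ⊢
            exact ⟨hx.1, hcy.trans hx.2⟩
        obtain ⟨x, hx, hr⟩ := ih _ hlt y hy (hwz.trans hcy.le) rfl
        refine ⟨x, hx, ?_⟩
        have h1 : ReachQ (fun z => c ⬝ᵥ w ≤ c ⬝ᵥ z) a b T S 1 z y :=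
          ⟨z, ⟨hz, hwz, rfl⟩, hy, hwz.trans hcy.le, Or.inr hadj⟩
        exact reachQ_mono (by omega) (reachQ_trans h1 hr)
  obtain ⟨x, hx, hr⟩ := key _ w hw le_rfl rfl
  exact ⟨x, hx, reachQ_mono (Finset.card_le_card (Finset.filter_subset _ _)) hr⟩

/-- Two vertices off the facet `o` in a common face of dimension `2` are joined off `o`. -/
theorem join_off {a : ι → Fin n → ℝ} {b : ι → ℝ} {T0 : Finset ι} (hG : GP a b T0)
    {T S : Finset ι} (hT0 : T0 ⊆ T) (hbd : Bornology.IsBounded (Pol a b T S)) {o : ι}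
    (ho : o ∈ S) {d : ℕ} (hT : n ≤ T.card + d) {x y : Fin n → ℝ} (hx : Vert a b T S x)
    (hy : Vert a b T S y) (hxo : a o ⬝ᵥ x < b o) (hyo : a o ⬝ᵥ y < b o) :
    ReachQ (fun z => a o ⬝ᵥ z < b o) a b T S (2 * Fintype.card ι ^ d) x y := by
  have hm : 1 ≤ Fintype.card ι := Fintype.card_pos_iff.2 ⟨o⟩
  have hTn : T.card ≤ n := by
    rw [← hx.2]
    refine Finset.card_le_card fun i hi => ?_
    exact mem_tt.2 ⟨Finset.mem_union_left _ hi, hx.1.1 i hi⟩
  have hcard := card_vert_face hG (T := T) (S := S) hT hTn hm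
  have hwalk : ∀ w, Vert a b T S w → a o ⬝ᵥ w < b o → ∃ z, IsOpt a b T S (-(a o)) z ∧
      ReachQ (fun z => a o ⬝ᵥ z < b o) a b T S (Fintype.card ι ^ d) w z := by
    intro w hw hwo
    obtain ⟨z, hz, hr⟩ := simplex_walk hG hT0 hbd (-(a o)) hw
    refine ⟨z, hz, reachQ_mono hcard (reachQ_weaken ?_ hr)⟩
    intro y hy
    rw [neg_dotProduct, neg_dotProduct] at hy
    linarith
  obtain ⟨z, hz, hr⟩ := hwalk x hx hxo
  obtain ⟨z', hz', hr'⟩ := hwalk y hy hyo
  have hzz : z' = z := by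
    obtain ⟨hzv, hzo⟩ := reachQ_vert hr
    obtain ⟨l, hl⟩ := exists_mult hG hzv.2 (-(a o))
    have hoI : o ∉ tt a b (T ∪ S) z := fun h => absurd (mem_tt.1 h).2 hzo.ne
    refine opt_unique hG hzv hl ?_ hz'
    intro i hi hiT
    have h1 := mult_nonneg hG hT0 hzv hz hl hi hiT
    refine lt_of_le_of_ne h1 fun h0 => ?_
    -- `a o` would be in the span of the other tight rows
    have hoE : o ∉ (tt a b (T ∪ S) z).erase i := fun h => hoI (Finset.mem_of_mem_erase h)
    have hcI : (insert o ((tt a b (T ∪ S) z).erase i)).card ≤ n := by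
      rw [Finset.card_insert_of_notMem hoE, Finset.card_erase_add_one hi, hzv.2]
    have hsum : ∑ j ∈ insert o ((tt a b (T ∪ S) z).erase i),
        (if j = o then 1 else l j) • a j = 0 := by
      rw [Finset.sum_insert hoE, if_pos rfl, one_smul]
      have h2 : ∑ j ∈ (tt a b (T ∪ S) z).erase i, (if j = o then 1 else l j) • a j =
          ∑ j ∈ (tt a b (T ∪ S) z).erase i, l j • a j := by
        refine Finset.sum_congr rfl fun j hj => ?_
        rw [if_neg]
        rintro rfl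
        exact hoE hj
      have h3 : ∑ j ∈ tt a b (T ∪ S) z, l j • a j = -(a o) := by
        unfold IsMult at hl
        exact hl.symm
      rw [← Finset.add_sum_erase _ _ hi, ← h0, zero_smul, zero_add] at h3
      rw [h2, h3, add_neg_cancel]
    have h4 := hG.be _ hcI
    rw [Fintype.linearIndependent_iff] at h4
    have h5 := h4 (fun j => if (j : ι) = o then 1 else l j) (by
      rw [← Finset.sum_coe_sort (insert o ((tt a b (T ∪ S) z).erase i))] at hsum
      exact hsum) ⟨o, Finset.mem_insert_self _ _⟩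
    simp at h5
  rw [hzz] at hr'
  have h := reachQ_trans hr (reachQ_symm hr')
  rwa [← two_mul] at h

/-- The neighbour off the facet `o`. -/
theorem exists_star {a : ι → Fin n → ℝ} {b : ι → ℝ} {T0 : Finset ι} (hG : GP a b T0)
    {T S : Finset ι} (hT0 : T0 ⊆ T) (hbd : Bornology.IsBounded (Pol a b T S)) {o : ι}
    (ho : o ∈ S) (hoT : o ∉ T) {w : Fin n → ℝ} (hw : Vert a b T S w) :
    ∃ w', Vert a b T S w' ∧ a o ⬝ᵥ w' < b o ∧
      (tt a b (T ∪ S) w).erase o ⊆ tt a b (T ∪ S) w' ∧ (a o ⬝ᵥ w < b o → w' = w) := by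
  by_cases hwo : a o ⬝ᵥ w < b o
  · exact ⟨w, hw, hwo, Finset.erase_subset _ _, fun _ => rfl⟩
  · have hwo' : a o ⬝ᵥ w = b o := le_antisymm (hw.1.2 o ho) (not_lt.1 hwo)
    have hoI : o ∈ tt a b (T ∪ S) w := mem_tt.2 ⟨Finset.mem_union_right _ ho, hwo'⟩
    obtain ⟨r, hr1, hr0⟩ := dir_exists hG hw.2 hoI
    have hrne : r ≠ 0 := by
      rintro rfl
      rw [dotProduct_zero] at hr1
      linarith
    obtain ⟨τ, hτ, hout⟩ := ray_leaves hbd hrne (x := w)
    obtain ⟨s, hs, -, hv, -, -⟩ := exit_lemma hG hT0 hw hoI hoT hr1 hr0 hτ hout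
    refine ⟨w + s • r, hv, ?_, ?_, fun h => absurd h hwo⟩
    · rw [dotProduct_add, dotProduct_smul, hr1, smul_eq_mul, hwo']
      linarith
    · intro i hi
      obtain ⟨h1, h2⟩ := Finset.mem_erase.1 hi
      refine mem_tt.2 ⟨(mem_tt.1 h2).1, ?_⟩
      rw [dotProduct_add, dotProduct_smul, hr0 i h2 h1, smul_zero, add_zero]
      exact (mem_tt.1 h2).2

/-- Vertices whose tight rows contain `K`, `|K| ≥ n - d`, off the facet `o`, are joined off `o`. -/
theorem join_common {a : ι → Fin n → ℝ} {b : ι → ℝ} {T0 : Finset ι} (hG : GP a b T0)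
    {T S : Finset ι} (hT0 : T0 ⊆ T) (hbd : Bornology.IsBounded (Pol a b T S)) {o : ι}
    (ho : o ∈ S) {d : ℕ} {K : Finset ι} (hK : n ≤ K.card + d) {x y : Fin n → ℝ}
    (hx : Vert a b T S x) (hy : Vert a b T S y) (hxK : K ⊆ tt a b (T ∪ S) x)
    (hyK : K ⊆ tt a b (T ∪ S) y) (hxo : a o ⬝ᵥ x < b o) (hyo : a o ⬝ᵥ y < b o) :
    ReachQ (fun z => a o ⬝ᵥ z < b o) a b T S (2 * Fintype.card ι ^ d) x y := by
  have hKS : K ⊆ T ∪ S := fun i hi => (mem_tt.1 (hxK hi)).1
  have hoK : o ∉ K := fun h => absurd (mem_tt.1 (hxK h)).2 hxo.ne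
  have hsub : Pol a b (T ∪ K) (S \ K) ⊆ Pol a b T S := by
    intro z hz
    refine ⟨fun i hi => hz.1 i (Finset.mem_union_left _ hi), fun i hi => ?_⟩
    by_cases hiK : i ∈ K
    · exact (hz.1 i (Finset.mem_union_right _ hiK)).le
    · exact hz.2 i (Finset.mem_sdiff.2 ⟨hi, hiK⟩)
  have hun : (T ∪ K) ∪ (S \ K) = T ∪ S := by
    ext j
    simp only [Finset.mem_union, Finset.mem_sdiff]
    constructor
    · rintro ((h | h) | h)
      · exact Or.inl h
      · exact Finset.mem_union.1 (hKS h)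
      · exact Or.inr h.1
    · rintro (h | h)
      · exact Or.inl (Or.inl h)
      · by_cases hj : j ∈ K
        · exact Or.inl (Or.inr hj)
        · exact Or.inr ⟨h, hj⟩
  refine reachQ_of_sub hun hsub (join_off hG (hT0.trans Finset.subset_union_left)
    (hbd.subset hsub) (Finset.mem_sdiff.2 ⟨ho, hoK⟩) ?_ (vert_common hx hxK)
    (vert_common hy hyK) hxo hyo)
  have := Finset.card_le_card (Finset.subset_union_right : K ⊆ T ∪ K)
  omega

/-- The polygon detour around the facet `o`. -/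
theorem detour {a : ι → Fin n → ℝ} {b : ι → ℝ} {T0 : Finset ι} (hG : GP a b T0)
    {T S : Finset ι} (hT0 : T0 ⊆ T) (hbd : Bornology.IsBounded (Pol a b T S)) {o : ι}
    (ho : o ∈ S) (hoT : o ∉ T) {r : ℕ} {x y : Fin n → ℝ} (h : Reach a b T S r x y)
    (hxo : a o ⬝ᵥ x < b o) (hyo : a o ⬝ᵥ y < b o) :
    ReachQ (fun z => a o ⬝ᵥ z < b o) a b T S (r * (2 * Fintype.card ι ^ 2)) x y := by
  have hm : 1 ≤ Fintype.card ι := Fintype.card_pos_iff.2 ⟨o⟩
  -- the claim for the neighbours off the facet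
  have key : ∀ (r : ℕ) (y : Fin n → ℝ), Reach a b T S r x y → ∀ y', Vert a b T S y' →
      a o ⬝ᵥ y' < b o → (tt a b (T ∪ S) y).erase o ⊆ tt a b (T ∪ S) y' →
      (a o ⬝ᵥ y < b o → y' = y) →
      ReachQ (fun z => a o ⬝ᵥ z < b o) a b T S (r * (2 * Fintype.card ι ^ 2)) x y' := by
    intro r
    induction r with
    | zero =>
      intro y h y' hy' hy'o _ hyy
      obtain ⟨h1, h2⟩ := h
      subst h2
      rw [hyy hxo, zero_mul]
      exact ⟨h1, hxo, rfl⟩
    | succ r ih =>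
      intro y h y' hy' hy'o hsub hyy
      obtain ⟨z, h1, h2, h3⟩ := h
      obtain ⟨z', hz', hz'o, hz's, hzz⟩ := exists_star hG hT0 hbd ho hoT (reach_vert h1)
      have h4 := ih z h1 z' hz' hz'o hz's hzz
      -- common rows of `z'` and `y'`
      have hcz : n ≤ (tt a b (T ∪ S) z ∩ tt a b (T ∪ S) y).card + 1 := by
        rcases h3 with h3 | h3
        · rw [h3, Finset.inter_self, h2.2]
          omega
        · exact h3.2
      have hK : n ≤ ((tt a b (T ∪ S) z ∩ tt a b (T ∪ S) y).erase o).card + 2 := by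
        have := Finset.card_le_card
          (Finset.subset_insert o ((tt a b (T ∪ S) z ∩ tt a b (T ∪ S) y).erase o))
        have h5 := Finset.pred_card_le_card_erase
          (s := tt a b (T ∪ S) z ∩ tt a b (T ∪ S) y) (a := o)
        omega
      have hKz : (tt a b (T ∪ S) z ∩ tt a b (T ∪ S) y).erase o ⊆ tt a b (T ∪ S) z' := by
        intro i hi
        obtain ⟨h5, h6⟩ := Finset.mem_erase.1 hi
        exact hz's (Finset.mem_erase.2 ⟨h5, (Finset.mem_inter.1 h6).1⟩)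
      have hKy : (tt a b (T ∪ S) z ∩ tt a b (T ∪ S) y).erase o ⊆ tt a b (T ∪ S) y' := by
        intro i hi
        obtain ⟨h5, h6⟩ := Finset.mem_erase.1 hi
        exact hsub (Finset.mem_erase.2 ⟨h5, (Finset.mem_inter.1 h6).2⟩)
      have h5 := join_common hG hT0 hbd ho hK hz' hy' hKz hKy hz'o hy'o
      have h6 := reachQ_trans h4 h5
      rwa [← Nat.succ_mul] at h6
  exact key r y h y (reach_vert h) hyo (Finset.erase_subset _ _) (fun _ => rfl)

end Pool.Agent.Lib.S3.Geo
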