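import Pool.Agent.Lib.S3.Geo.Dm
import Pool.Agent.Lib.S3.Geo.Detour

/-!
# The chart of a polyhedron and the transfer of walks

`chA a b N`, `chB`: the rows of the chart in `ℝ^(n+1)`: `none` is the equality row `N y = 1`,
`some none` the facet at infinity `-y 0 ≤ 0`, `some (some i)` the row `a i x - b i t ≤ 0`.
`lift N x`: the point of the chart over `x`; `drop y`: the affine point of `y`.
-/

set_option autoImplicit false

namespace Pool.Agent.Lib.S3.Geo

open Pool.Agent.Lib.SHirsch (Gr GPos)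

variable {m n : ℕ}

/-- The rows of the chart. -/
def chA (a : Fin m → Fin n → ℝ) (b : Fin m → ℝ) (N : Fin (n + 1) → ℝ) :
    Option (Option (Fin m)) → Fin (n + 1) → ℝ
  | none => N
  | some o => Gr a b o

/-- The right hand sides of the chart. -/
def chB (m : ℕ) : Option (Option (Fin m)) → ℝ
  | none => 1
  | some _ => 0

/-- The inequality rows of the chart. -/
def chS (m : ℕ) : Finset (Option (Option (Fin m))) := Finset.univ.erase none

/-- The chart of the polyhedron `a x ≤ b`. -/
def Chart (a : Fin m → Fin n → ℝ) (b : Fin m → ℝ) (N : Fin (n + 1) → ℝ) :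
    Set (Fin (n + 1) → ℝ) := Pol (chA a b N) (chB m) {none} (chS m)

/-- The homogeneous coordinates. -/
def hom (x : Fin n → ℝ) : Fin (n + 1) → ℝ := Fin.cons 1 x

/-- The point of the chart over `x`. -/
noncomputable def lift (N : Fin (n + 1) → ℝ) (x : Fin n → ℝ) : Fin (n + 1) → ℝ :=
  (N ⬝ᵥ hom x)⁻¹ • hom x

/-- The affine point of `y`. -/
noncomputable def drop (y : Fin (n + 1) → ℝ) : Fin n → ℝ := fun j => y j.succ / y 0

theorem cons_dot (t : ℝ) (v : Fin n → ℝ) (y : Fin (n + 1) → ℝ) :
    (Fin.cons t v : Fin (n + 1) → ℝ) ⬝ᵥ y = t * y 0 + v ⬝ᵥ (fun j => y j.succ) := by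
  unfold dotProduct
  rw [Fin.sum_univ_succ]
  simp

theorem gr_some (a : Fin m → Fin n → ℝ) (b : Fin m → ℝ) (i : Fin m) (y : Fin (n + 1) → ℝ) :
    Gr a b (some i) ⬝ᵥ y = a i ⬝ᵥ (fun j => y j.succ) - b i * y 0 := by
  show (Fin.cons (-(b i)) (a i) : Fin (n + 1) → ℝ) ⬝ᵥ y = _
  rw [cons_dot]
  ring

theorem gr_none (a : Fin m → Fin n → ℝ) (b : Fin m → ℝ) (y : Fin (n + 1) → ℝ) :
    Gr a b none ⬝ᵥ y = -y 0 := by
  show (Fin.cons (-1) 0 : Fin (n + 1) → ℝ) ⬝ᵥ y = _
  rw [cons_dot, zero_dotProduct]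
  ring

theorem succ_eq_smul_drop {y : Fin (n + 1) → ℝ} (hy : y 0 ≠ 0) :
    (fun j : Fin n => y j.succ) = y 0 • drop y := by
  funext j
  rw [Pi.smul_apply, smul_eq_mul]
  unfold drop
  field_simp

theorem gr_some_drop (a : Fin m → Fin n → ℝ) (b : Fin m → ℝ) (i : Fin m)
    {y : Fin (n + 1) → ℝ} (hy : y 0 ≠ 0) :
    Gr a b (some i) ⬝ᵥ y = y 0 * (a i ⬝ᵥ drop y - b i) := by
  rw [gr_some, succ_eq_smul_drop hy, dotProduct_smul, smul_eq_mul]
  ring

theorem eq_smul_hom {y : Fin (n + 1) → ℝ} (hy : y 0 ≠ 0) : y = y 0 • hom (drop y) := by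
  funext j
  refine Fin.cases ?_ (fun j => ?_) j
  · simp [hom]
  · rw [Pi.smul_apply, smul_eq_mul]
    unfold hom
    rw [Fin.cons_succ]
    unfold drop
    field_simp

theorem drop_lift {N : Fin (n + 1) → ℝ} {x : Fin n → ℝ} (hx : N ⬝ᵥ hom x ≠ 0) :
    drop (lift N x) = x := by
  funext j
  unfold drop lift
  rw [Pi.smul_apply, Pi.smul_apply, smul_eq_mul, smul_eq_mul]
  unfold hom at hx ⊢
  rw [Fin.cons_succ, Fin.cons_zero, mul_one]
  field_simp

/-- The tight rows of a chart point off infinity. -/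
theorem tt_chart (a : Fin m → Fin n → ℝ) (b : Fin m → ℝ) {N y : Fin (n + 1) → ℝ}
    (hN : N ⬝ᵥ y = 1) (hy : y 0 ≠ 0) :
    tt (chA a b N) (chB m) ({none} ∪ chS m) y =
      insert none ((SHirsch.tt a b (∅ ∪ Finset.univ) (drop y)).map
        ⟨fun i => some (some i), fun i j h => by simpa using h⟩) := by
  ext o
  rw [mem_tt, Finset.mem_insert, Finset.mem_map]
  have hU : ∀ o : Option (Option (Fin m)), o ∈ ({none} : Finset _) ∪ chS m := by
    intro o
    by_cases ho : o = none
    · exact Finset.mem_union_left _ (Finset.mem_singleton.2 ho)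
    · exact Finset.mem_union_right _ (Finset.mem_erase.2 ⟨ho, Finset.mem_univ _⟩)
  match o with
  | none => simp [chA, chB, hN]
  | some none =>
    simp only [hU, true_and, Option.some_ne_none, false_or]
    constructor
    · intro h
      exfalso
      have h1 : Gr a b none ⬝ᵥ y = 0 := h
      rw [gr_none] at h1
      exact hy (by linarith)
    · rintro ⟨i, -, hi⟩
      exact absurd (Option.some.inj (show some (some i) = some none from hi)) (by simp)
  | some (some i) =>
    simp only [hU, true_and, Option.some_ne_none, false_or]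
    constructor
    · intro h
      have h1 : Gr a b (some i) ⬝ᵥ y = 0 := h
      rw [gr_some_drop a b i hy] at h1
      refine ⟨i, ?_, rfl⟩
      rw [SHirsch.mem_tt]
      refine ⟨by simp, ?_⟩
      rcases mul_eq_zero.1 h1 with h2 | h2
      · exact absurd h2 hy
      · linarith
    · rintro ⟨j, hj, hji⟩
      have hji' : j = i := Option.some.inj (Option.some.inj (show some (some j) = some (some i)
        from hji))
      subst hji'
      rw [SHirsch.mem_tt] at hj
      show Gr a b (some j) ⬝ᵥ y = 0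
      rw [gr_some_drop a b j hy, hj.2, sub_self, mul_zero]

/-- Chart points off infinity and points of the polyhedron. -/
theorem mem_chart_iff (a : Fin m → Fin n → ℝ) (b : Fin m → ℝ) {N y : Fin (n + 1) → ℝ}
    (hy : 0 < y 0) : y ∈ Chart a b N ↔
      N ⬝ᵥ y = 1 ∧ drop y ∈ SHirsch.Pol a b ∅ Finset.univ := by
  unfold Chart Pol SHirsch.Pol
  constructor
  · rintro ⟨h1, h2⟩
    refine ⟨h1 none (Finset.mem_singleton_self _), by simp, fun i _ => ?_⟩
    have h3 : Gr a b (some i) ⬝ᵥ y ≤ 0 := h2 (some (some i)) (by simp [chS])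
    rw [gr_some_drop a b i hy.ne'] at h3
    by_contra hc
    push Not at hc
    have := mul_pos hy (sub_pos.2 hc)
    linarith
  · rintro ⟨h1, -, h2⟩
    refine ⟨fun o ho => ?_, fun o ho => ?_⟩
    · rw [Finset.mem_singleton.1 ho]
      exact h1
    · match o with
      | none => simp [chS] at ho
      | some none =>
        show Gr a b none ⬝ᵥ y ≤ 0
        rw [gr_none]
        linarith
      | some (some i) =>
        show Gr a b (some i) ⬝ᵥ y ≤ 0
        rw [gr_some_drop a b i hy.ne']
        have := h2 i (Finset.mem_univ i)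
        have h3 := mul_nonneg hy.le (sub_nonneg.2 this)
        linarith

/-- A chart vertex off infinity gives a vertex. -/
theorem vert_drop (a : Fin m → Fin n → ℝ) (b : Fin m → ℝ) {N y : Fin (n + 1) → ℝ}
    (hy : 0 < y 0) (h : Vert (chA a b N) (chB m) {none} (chS m) y) :
    SHirsch.Vert a b ∅ Finset.univ (drop y) := by
  have h1 := (mem_chart_iff a b hy (N := N)).1 h.1
  refine ⟨h1.2, ?_⟩
  have h2 := h.2
  rw [tt_chart a b h1.1 hy.ne', Finset.card_insert_of_notMem (by simp), Finset.card_map] at h2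
  omega

/-- A vertex gives a chart vertex. -/
theorem vert_lift (a : Fin m → Fin n → ℝ) (b : Fin m → ℝ) {N : Fin (n + 1) → ℝ}
    {x : Fin n → ℝ} (hN : 0 < N ⬝ᵥ hom x) (h : SHirsch.Vert a b ∅ Finset.univ x) :
    Vert (chA a b N) (chB m) {none} (chS m) (lift N x) ∧ 0 < lift N x 0 := by
  have h0 : 0 < lift N x 0 := by
    unfold lift
    rw [Pi.smul_apply, smul_eq_mul]
    unfold hom at hN ⊢
    rw [Fin.cons_zero, mul_one]
    exact inv_pos.2 hN
  have h1 : N ⬝ᵥ lift N x = 1 := by
    unfold lift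
    rw [dotProduct_smul, smul_eq_mul, inv_mul_cancel₀ hN.ne']
  have h2 : lift N x ∈ Chart a b N := by
    rw [mem_chart_iff a b h0]
    refine ⟨h1, ?_⟩
    rw [drop_lift hN.ne']
    exact h.1
  refine ⟨⟨h2, ?_⟩, h0⟩
  rw [tt_chart a b h1 h0.ne', Finset.card_insert_of_notMem (by simp), Finset.card_map,
    drop_lift hN.ne', h.2]

/-- Walks of the chart off infinity give walks of the polyhedron. -/
theorem reach_drop (a : Fin m → Fin n → ℝ) (b : Fin m → ℝ) {N : Fin (n + 1) → ℝ} {r : ℕ}
    {x y : Fin (n + 1) → ℝ}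
    (h : ReachQ (fun z => chA a b N (some none) ⬝ᵥ z < chB m (some none)) (chA a b N) (chB m)
      {none} (chS m) r x y) :
    SHirsch.Reach a b ∅ Finset.univ r (drop x) (drop y) := by
  have hpos : ∀ {z : Fin (n + 1) → ℝ},
      chA a b N (some none) ⬝ᵥ z < chB m (some none) → 0 < z 0 := by
    intro z hz
    have h1 : Gr a b none ⬝ᵥ z < 0 := hz
    rw [gr_none] at h1
    linarith
  induction r generalizing y with
  | zero =>
    obtain ⟨h1, h2, h3⟩ := h
    subst h3
    exact ⟨vert_drop a b (hpos h2) h1, rfl⟩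
  | succ r ih =>
    obtain ⟨z, h1, h2, h3, h4⟩ := h
    have hz := reachQ_vert h1
    have hz0 := hpos hz.2
    have hy0 := hpos h3
    have hzN := ((mem_chart_iff a b hz0 (N := N)).1 hz.1.1).1
    have hyN := ((mem_chart_iff a b hy0 (N := N)).1 h2.1).1
    refine ⟨drop z, ih h1, vert_drop a b hy0 h2, ?_⟩
    rcases h4 with h4 | h4
    · exact Or.inl (by rw [h4])
    · right
      refine ⟨fun he => h4.1 ?_, ?_⟩
      · -- the same affine point: the same chart point
        have e1 := eq_smul_hom hz0.ne'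
        have e2 := eq_smul_hom hy0.ne'
        rw [he] at e1
        have f1 : z 0 * (N ⬝ᵥ hom (drop y)) = 1 := by
          rw [← hzN]
          conv_rhs => rw [e1]
          rw [dotProduct_smul, smul_eq_mul]
        have f2 : y 0 * (N ⬝ᵥ hom (drop y)) = 1 := by
          rw [← hyN]
          conv_rhs => rw [e2]
          rw [dotProduct_smul, smul_eq_mul]
        have f3 : N ⬝ᵥ hom (drop y) ≠ 0 := by
          intro h0
          rw [h0, mul_zero] at f1
          exact zero_ne_one f1
        have f4 : z 0 = y 0 := mul_right_cancel₀ f3 (f1.trans f2.symm)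
        exact e1.trans ((congrArg (fun s : ℝ => s • hom (drop y)) f4).trans e2.symm)
      · have h5 := h4.2
        rw [tt_chart a b hzN hz0.ne', tt_chart a b hyN hy0.ne', ← Finset.insert_inter_distrib,
          Finset.card_insert_of_notMem (by simp), ← Finset.map_inter, Finset.card_map] at h5
        omega

/-- The diameter of the polyhedron from walks in the chart. -/
theorem dm_of_chart {a : Fin m → Fin n → ℝ} {b : Fin m → ℝ} (hG : GPos a b)
    {N : Fin (n + 1) → ℝ} (hGc : GP (chA a b N) (chB m) {none})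
    (hbd : Bornology.IsBounded (Chart a b N))
    (hN : ∀ x ∈ SHirsch.Pol a b ∅ Finset.univ, 0 < N ⬝ᵥ hom x) {r : ℕ}
    (h : ∀ u v : Fin (n + 1) → ℝ, Vert (chA a b N) (chB m) {none} (chS m) u → 0 < u 0 →
      Vert (chA a b N) (chB m) {none} (chS m) v → 0 < v 0 →
      Reach (chA a b N) (chB m) {none} (chS m) r u v) :
    SHirsch.dm (SHirsch.Pol a b ∅ Finset.univ) ≤ ((r * (2 * (m + 2) ^ 2) : ℕ) : ℕ∞) := by
  refine dm_le_of_reach hG Finset.univ _ fun u v hu hv => ?_
  obtain ⟨hu1, hu0⟩ := vert_lift a b (hN u hu.1) hu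
  obtain ⟨hv1, hv0⟩ := vert_lift a b (hN v hv.1) hv
  have h1 := h _ _ hu1 hu0 hv1 hv0
  have hoff : ∀ z : Fin (n + 1) → ℝ, 0 < z 0 →
      chA a b N (some none) ⬝ᵥ z < chB m (some none) := by
    intro z hz
    show Gr a b none ⬝ᵥ z < 0
    rw [gr_none]
    linarith
  have h2 := detour hGc (T := {none}) (S := chS m) (Finset.Subset.refl _) hbd
    (o := some none) (by simp [chS]) (by simp) h1 (hoff _ hu0) (hoff _ hv0)
  have h3 := reach_drop a b h2
  rw [drop_lift (hN u hu.1).ne', drop_lift (hN v hv.1).ne'] at h3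
  have hcard : Fintype.card (Option (Option (Fin m))) = m + 2 := by
    rw [Fintype.card_option, Fintype.card_option, Fintype.card_fin]
  rwa [hcard] at h3

end Pool.Agent.Lib.S3.Geo
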