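import Pool.Agent.Lib.S3.Geo.Defs

/-!
# Basic facts on walks
-/

set_option autoImplicit false

namespace Pool.Agent.Lib.S3.Geo

variable {ι : Type} [DecidableEq ι] {n : ℕ}


private theorem reach_succ_self {a : ι → Fin n → ℝ} {b : ι → ℝ}
    {T S : Finset ι} {r : ℕ} {x y : Fin n → ℝ} (hy : Vert a b T S y)
    (h : Reach a b T S r x y) : Reach a b T S (r + 1) x y :=
  ⟨y, h, hy, Or.inl rfl⟩

theorem reach_vert {a : ι → Fin n → ℝ} {b : ι → ℝ} {T S : Finset ι}
    {r : ℕ} {x y : Fin n → ℝ} (h : Reach a b T S r x y) : Vert a b T S y := by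
  cases r with
  | zero =>
    obtain ⟨h1, h2⟩ := h
    subst h2
    exact h1
  | succ r =>
    obtain ⟨z, _, h2, _⟩ := h
    exact h2

theorem reach_vert_left {a : ι → Fin n → ℝ} {b : ι → ℝ}
    {T S : Finset ι} {r : ℕ} {x y : Fin n → ℝ} (h : Reach a b T S r x y) :
    Vert a b T S x := by
  induction r generalizing y with
  | zero => exact h.1
  | succ r ih =>
    obtain ⟨z, h1, _, _⟩ := h
    exact ih h1

theorem reach_mono {a : ι → Fin n → ℝ} {b : ι → ℝ} {T S : Finset ι}
    {r r' : ℕ} (hr : r ≤ r') {x y : Fin n → ℝ} (h : Reach a b T S r x y) :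
    Reach a b T S r' x y := by
  induction hr with
  | refl => exact h
  | step _ ih => exact reach_succ_self (reach_vert h) ih

theorem reach_trans {a : ι → Fin n → ℝ} {b : ι → ℝ} {T S : Finset ι}
    {r r' : ℕ} {x y z : Fin n → ℝ} (h : Reach a b T S r x y) (h' : Reach a b T S r' y z) :
    Reach a b T S (r + r') x z := by
  induction r' generalizing z with
  | zero =>
    obtain ⟨_, h2⟩ := h'
    subst h2
    exact h
  | succ r' ih =>
    obtain ⟨w, h1, h2, h3⟩ := h'
    exact ⟨w, ih h1, h2, h3⟩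

private theorem adj_symm {a : ι → Fin n → ℝ} {b : ι → ℝ}
    {T S : Finset ι} {x y : Fin n → ℝ} (h : Adj a b T S x y) : Adj a b T S y x := by
  refine ⟨fun e => h.1 e.symm, ?_⟩
  have := h.2
  rw [Finset.inter_comm] at this
  exact this

theorem reach_symm {a : ι → Fin n → ℝ} {b : ι → ℝ} {T S : Finset ι}
    {r : ℕ} {x y : Fin n → ℝ} (h : Reach a b T S r x y) : Reach a b T S r y x := by
  induction r generalizing y with
  | zero =>
    obtain ⟨h1, h2⟩ := h
    subst h2
    exact ⟨h1, rfl⟩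
  | succ r ih =>
    obtain ⟨z, h1, h2, h3⟩ := h
    have h4 : Reach a b T S 1 y z := by
      refine ⟨y, ⟨h2, rfl⟩, reach_vert h1, ?_⟩
      rcases h3 with h3 | h3
      · exact Or.inl h3.symm
      · exact Or.inr (adj_symm h3)
    have h5 := reach_trans h4 (ih h1)
    rw [Nat.add_comm] at h5
    exact h5

private theorem union_face {T S : Finset ι} {i : ι} (hi : i ∈ S) :
    insert i T ∪ S.erase i = T ∪ S := by
  ext j
  simp only [Finset.mem_union, Finset.mem_insert, Finset.mem_erase]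
  constructor
  · rintro ((h | h) | h)
    · subst h; exact Or.inr hi
    · exact Or.inl h
    · exact Or.inr h.2
  · rintro (h | h)
    · exact Or.inl (Or.inr h)
    · by_cases hj : j = i
      · exact Or.inl (Or.inl hj)
      · exact Or.inr ⟨hj, h⟩

theorem vert_face {a : ι → Fin n → ℝ} {b : ι → ℝ} {T S : Finset ι}
    {x : Fin n → ℝ} (h : Vert a b T S x) {i : ι} (hi : i ∈ S) (hx : a i ⬝ᵥ x = b i) :
    Vert a b (insert i T) (S.erase i) x := by
  obtain ⟨⟨h1, h2⟩, h3⟩ := h
  refine ⟨⟨?_, ?_⟩, ?_⟩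
  · intro j hj
    rcases Finset.mem_insert.mp hj with hj | hj
    · subst hj; exact hx
    · exact h1 j hj
  · intro j hj
    exact h2 j (Finset.mem_of_mem_erase hj)
  · rw [union_face hi]; exact h3

private theorem vert_unface {a : ι → Fin n → ℝ} {b : ι → ℝ}
    {T S : Finset ι} {i : ι} (hi : i ∈ S) {x : Fin n → ℝ}
    (h : Vert a b (insert i T) (S.erase i) x) : Vert a b T S x := by
  obtain ⟨⟨h1, h2⟩, h3⟩ := h
  rw [union_face hi] at h3
  refine ⟨⟨fun j hj => h1 j (Finset.mem_insert_of_mem hj), fun j hj => ?_⟩, h3⟩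
  by_cases hji : j = i
  · subst hji
    exact (h1 j (Finset.mem_insert_self _ _)).le
  · exact h2 j (Finset.mem_erase.mpr ⟨hji, hj⟩)

theorem reach_face {a : ι → Fin n → ℝ} {b : ι → ℝ} {T S : Finset ι}
    {i : ι} (hi : i ∈ S) {r : ℕ} {x y : Fin n → ℝ}
    (h : Reach a b (insert i T) (S.erase i) r x y) : Reach a b T S r x y := by
  induction r generalizing y with
  | zero => exact ⟨vert_unface hi h.1, h.2⟩
  | succ r ih =>
    obtain ⟨z, h1, h2, h3⟩ := h
    refine ⟨z, ih h1, vert_unface hi h2, ?_⟩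
    rcases h3 with h3 | h3
    · exact Or.inl h3
    · right
      obtain ⟨h4, h5⟩ := h3
      rw [union_face hi] at h5
      exact ⟨h4, h5⟩

end Pool.Agent.Lib.S3.Geo
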