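import Pool.Agent.Lib.S3.Geo.Exit
import Pool.Agent.Lib.S3.Geo.Walk

/-!
# The graph of the vertices is connected
-/

set_option autoImplicit false

namespace Pool.Agent.Lib.S3.Geo

variable {ι : Type} [Fintype ι] [DecidableEq ι] {n : ℕ}


/-- The linear functional. -/
private noncomputable def cc (a : ι → Fin n → ℝ) (I : Finset ι)
    (x : Fin n → ℝ) : ℝ := ∑ i ∈ I, a i ⬝ᵥ x

private theorem cc_add_smul (a : ι → Fin n → ℝ) (I : Finset ι)
    (x y : Fin n → ℝ) (t : ℝ) : cc a I (x + t • y) = cc a I x + t * cc a I y := by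
  unfold cc
  rw [Finset.mul_sum, ← Finset.sum_add_distrib]
  refine Finset.sum_congr rfl fun i _ => ?_
  rw [dotProduct_add, dotProduct_smul, smul_eq_mul]

private theorem tight_le {a : ι → Fin n → ℝ} {b : ι → ℝ}
    {T S : Finset ι} {x : Fin n → ℝ} (hx : x ∈ Pol a b T S) {i : ι}
    (hi : i ∈ T ∪ S) : a i ⬝ᵥ x ≤ b i := by
  rcases Finset.mem_union.1 hi with h | h
  · exact (hx.1 i h).le
  · exact hx.2 i h

private theorem cc_le {a : ι → Fin n → ℝ} {b : ι → ℝ}
    {T S : Finset ι} {u x : Fin n → ℝ} (hx : x ∈ Pol a b T S) :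
    cc a (tt a b (T ∪ S) u) x ≤ cc a (tt a b (T ∪ S) u) u := by
  unfold cc
  refine Finset.sum_le_sum fun i hi => ?_
  rw [mem_tt] at hi
  rw [hi.2]
  exact tight_le hx hi.1

private theorem cc_lt {a : ι → Fin n → ℝ} {b : ι → ℝ} {T0 : Finset ι} (hG : GP a b T0)
    {T S : Finset ι} {u x : Fin n → ℝ} (hu : Vert a b T S u) (hx : x ∈ Pol a b T S)
    (hne : x ≠ u) :
    cc a (tt a b (T ∪ S) u) x < cc a (tt a b (T ∪ S) u) u := by
  refine lt_of_le_of_ne (cc_le hx) ?_
  intro h
  apply hne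
  refine eq_of_tight hG hu.2 ?_
  unfold cc at h
  have key := (Finset.sum_eq_sum_iff_of_le (s := tt a b (T ∪ S) u)
    (f := fun i => a i ⬝ᵥ x) (g := fun i => a i ⬝ᵥ u) (fun i hi => by
      rw [mem_tt] at hi
      show a i ⬝ᵥ x ≤ a i ⬝ᵥ u
      rw [hi.2]
      exact tight_le hx hi.1)).1 h
  exact key

private theorem one_step {a : ι → Fin n → ℝ} {b : ι → ℝ} {T0 : Finset ι} (hG : GP a b T0)
    {T S : Finset ι} (hT0 : T0 ⊆ T) {u w : Fin n → ℝ} (hu : Vert a b T S u) (hw : Vert a b T S w)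
    (hne : w ≠ u) :
    ∃ z, Vert a b T S z ∧ Adj a b T S w z ∧
      cc a (tt a b (T ∪ S) u) w < cc a (tt a b (T ∪ S) u) z := by
  classical
  set I := tt a b (T ∪ S) u with hI
  set I' := tt a b (T ∪ S) w with hI'
  have hI'c : I'.card = n := hw.2
  have hdir : ∀ i : ι, ∃ r : Fin n → ℝ, i ∈ I' →
      (a i ⬝ᵥ r = -1 ∧ ∀ j ∈ I', j ≠ i → a j ⬝ᵥ r = 0) := by
    intro i
    by_cases hi : i ∈ I'
    · obtain ⟨r, hr⟩ := dir_exists hG hI'c hi
      exact ⟨r, fun _ => hr⟩
    · exact ⟨0, fun h => absurd h hi⟩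
  choose r hr using hdir
  have hlam : ∀ i ∈ I', 0 ≤ b i - a i ⬝ᵥ u := by
    intro i hi
    rw [hI', mem_tt] at hi
    have := tight_le hu.1 hi.1
    linarith
  have hsum : u = w + (1 : ℝ) • ∑ i ∈ I', (b i - a i ⬝ᵥ u) • r i := by
    refine eq_of_tight hG hI'c ?_
    intro j hj
    rw [one_smul, dotProduct_add, dotProduct_sum]
    rw [Finset.sum_eq_single_of_mem j hj]
    · rw [dotProduct_smul, (hr j hj).1, smul_eq_mul]
      have hj' := hj
      rw [hI', mem_tt] at hj'
      rw [hj'.2]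
      ring
    · intro i hi hij
      rw [dotProduct_smul, (hr i hi).2 j hj (Ne.symm hij), smul_zero]
  have hclt : cc a I w < cc a I u := cc_lt hG hu hw.1 hne
  have hcs : cc a I (∑ i ∈ I', (b i - a i ⬝ᵥ u) • r i) =
      ∑ i ∈ I', (b i - a i ⬝ᵥ u) * cc a I (r i) := by
    unfold cc
    simp only [Finset.mul_sum]
    rw [Finset.sum_comm]
    refine Finset.sum_congr rfl fun k _ => ?_
    rw [dotProduct_sum]
    refine Finset.sum_congr rfl fun i _ => ?_
    rw [dotProduct_smul, smul_eq_mul]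
  have hpos : 0 < ∑ i ∈ I', (b i - a i ⬝ᵥ u) * cc a I (r i) := by
    have h1 : cc a I u = cc a I w + 1 * cc a I (∑ i ∈ I', (b i - a i ⬝ᵥ u) • r i) := by
      rw [← cc_add_smul, ← hsum]
    rw [hcs] at h1
    linarith
  obtain ⟨i, hi, hipos⟩ : ∃ i ∈ I', 0 < (b i - a i ⬝ᵥ u) * cc a I (r i) := by
    by_contra hcon
    push Not at hcon
    exact absurd (Finset.sum_nonpos hcon) (not_le.2 hpos)
  have hl0 := hlam i hi
  have hlpos : 0 < b i - a i ⬝ᵥ u := by
    rcases hl0.lt_or_eq with h | h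
    · exact h
    · rw [← h, zero_mul] at hipos
      exact absurd hipos (lt_irrefl _)
  have hcpos : 0 < cc a I (r i) := by
    by_contra hcon
    push Not at hcon
    nlinarith
  have hiT : i ∉ T := by
    intro h
    have := hu.1.1 i h
    linarith
  have hviol : w + ((cc a I u - cc a I w) / cc a I (r i) + 1) • r i ∉ Pol a b T S := by
    intro h
    have h1 : cc a I (w + ((cc a I u - cc a I w) / cc a I (r i) + 1) • r i) ≤ cc a I u :=
      cc_le h
    rw [cc_add_smul, add_mul, div_mul_cancel₀ _ hcpos.ne'] at h1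
    linarith
  have hτ : 0 < (cc a I u - cc a I w) / cc a I (r i) + 1 := by
    have : 0 < (cc a I u - cc a I w) / cc a I (r i) := div_pos (by linarith) hcpos
    linarith
  obtain ⟨s, hs, -, hzv, hza, -⟩ := exit_lemma hG hT0 hw hi hiT (hr i hi).1 (hr i hi).2 hτ hviol
  refine ⟨w + s • r i, hzv, hza, ?_⟩
  rw [cc_add_smul]
  have := mul_pos hs hcpos
  linarith

private theorem finite_vert {a : ι → Fin n → ℝ} {b : ι → ℝ} {T0 : Finset ι} (hG : GP a b T0)
    (T S : Finset ι) : {x : Fin n → ℝ | Vert a b T S x}.Finite := by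
  refine Set.Finite.of_finite_image (f := fun x => tt a b (T ∪ S) x) (Set.toFinite _) ?_
  intro x hx y hy hxy
  have hx' : Vert a b T S x := hx
  have hxy' : tt a b (T ∪ S) x = tt a b (T ∪ S) y := hxy
  refine eq_of_tight hG hx'.2 ?_
  intro i hi
  have hi2 := hi
  rw [hxy'] at hi2
  rw [mem_tt] at hi hi2
  rw [hi.2, hi2.2]

theorem conn {a : ι → Fin n → ℝ} {b : ι → ℝ} {T0 : Finset ι} (hG : GP a b T0)
    {T S : Finset ι} (hT0 : T0 ⊆ T) {u v : Fin n → ℝ} (hu : Vert a b T S u) (hv : Vert a b T S v) :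
    ∃ r, Reach a b T S r u v := by
  classical
  have hfin := finite_vert hG T S
  have key : ∀ (N : ℕ) (w : Fin n → ℝ), Vert a b T S w →
      (hfin.toFinset.filter (fun z => cc a (tt a b (T ∪ S) u) w <
        cc a (tt a b (T ∪ S) u) z)).card = N → ∃ r, Reach a b T S r w u := by
    intro N
    induction N using Nat.strong_induction_on with
    | _ N ih =>
      intro w hw hN
      by_cases hne : w = u
      · exact ⟨0, hw, hne⟩
      · obtain ⟨z, hz, hza, hcz⟩ := one_step hG hT0 hu hw hne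
        have hlt : (hfin.toFinset.filter (fun y => cc a (tt a b (T ∪ S) u) z <
            cc a (tt a b (T ∪ S) u) y)).card < N := by
          rw [← hN]
          refine Finset.card_lt_card ?_
          rw [Finset.ssubset_iff_of_subset]
          · refine ⟨z, ?_, ?_⟩
            · rw [Finset.mem_filter, Set.Finite.mem_toFinset]
              exact ⟨hz, hcz⟩
            · rw [Finset.mem_filter]
              intro h
              exact absurd h.2 (lt_irrefl _)
          · intro y hy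
            rw [Finset.mem_filter] at hy ⊢
            exact ⟨hy.1, hcz.trans hy.2⟩
        obtain ⟨r, hr⟩ := ih _ hlt z hz rfl
        have h1 : Reach a b T S 1 w z := ⟨w, ⟨hw, rfl⟩, hz, Or.inr hza⟩
        exact ⟨1 + r, reach_trans h1 hr⟩
  obtain ⟨r, hr⟩ := key _ v hv rfl
  exact ⟨r, reach_symm hr⟩

end Pool.Agent.Lib.S3.Geo
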