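import Mathlib

/-!
# Geometry layer for the smoothed Hirsch problem (MP_4a5c02_co): definitions

Rows `a i : Fin n → ℝ` with right hand sides `b i`, indexed by any type `ι`. `Pol a b T S` is the
polyhedron with equality rows `T` and inequality rows `S`. General position `GP a b T0` is relative
to the equality rows `T0` (for instance `T0 = {N}` for the section `N y = 1` of a cone, `T0 = ∅` for
an affine system).
-/

set_option autoImplicit false

namespace Pool.Agent.Lib.S3.Geo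

/-- The polyhedron with equality rows `T` and inequality rows `S`. -/
def Pol {ι : Type} {n : ℕ} (a : ι → Fin n → ℝ) (b : ι → ℝ) (T S : Finset ι) :
    Set (Fin n → ℝ) :=
  {x | (∀ i ∈ T, a i ⬝ᵥ x = b i) ∧ ∀ i ∈ S, a i ⬝ᵥ x ≤ b i}

open Classical in
/-- The rows of `R` that are tight at `x`. -/
noncomputable def tt {ι : Type} {n : ℕ} (a : ι → Fin n → ℝ) (b : ι → ℝ) (R : Finset ι)
    (x : Fin n → ℝ) : Finset ι :=
  R.filter (fun i => a i ⬝ᵥ x = b i)

theorem mem_tt {ι : Type} {n : ℕ} {a : ι → Fin n → ℝ} {b : ι → ℝ} {R : Finset ι}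
    {x : Fin n → ℝ} {i : ι} : i ∈ tt a b R x ↔ i ∈ R ∧ a i ⬝ᵥ x = b i := by
  unfold tt; simp

/-- General position of the rows `(a, b)` relative to the equality rows `T0`. -/
structure GP {ι : Type} [Fintype ι] {n : ℕ} (a : ι → Fin n → ℝ) (b : ι → ℝ)
    (T0 : Finset ι) : Prop where
  al : ∀ x : Fin n → ℝ, (∀ i ∈ T0, a i ⬝ᵥ x = b i) → (tt a b Finset.univ x).card ≤ n
  be : ∀ J : Finset ι, J.card ≤ n → LinearIndependent ℝ (fun i : J => a i)

/-- Vertices: points of the polyhedron with exactly `n` tight rows. -/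
def Vert {ι : Type} [DecidableEq ι] {n : ℕ} (a : ι → Fin n → ℝ) (b : ι → ℝ) (T S : Finset ι)
    (x : Fin n → ℝ) : Prop :=
  x ∈ Pol a b T S ∧ (tt a b (T ∪ S) x).card = n

/-- Adjacent: different, with at least `n - 1` common tight rows. -/
def Adj {ι : Type} [DecidableEq ι] {n : ℕ} (a : ι → Fin n → ℝ) (b : ι → ℝ) (T S : Finset ι)
    (x y : Fin n → ℝ) : Prop :=
  x ≠ y ∧ n ≤ (tt a b (T ∪ S) x ∩ tt a b (T ∪ S) y).card + 1

/-- `Reach a b T S r x y`: a walk of length at most `r` from the vertex `x` to the vertex `y`. -/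
def Reach {ι : Type} [DecidableEq ι] {n : ℕ} (a : ι → Fin n → ℝ) (b : ι → ℝ)
    (T S : Finset ι) : ℕ → (Fin n → ℝ) → (Fin n → ℝ) → Prop
  | 0, x, y => Vert a b T S x ∧ x = y
  | r + 1, x, y => ∃ z, Reach a b T S r x z ∧ Vert a b T S y ∧ (z = y ∨ Adj a b T S z y)

/-- `x` maximises `c` over the polyhedron. -/
def IsOpt {ι : Type} {n : ℕ} (a : ι → Fin n → ℝ) (b : ι → ℝ) (T S : Finset ι)
    (c x : Fin n → ℝ) : Prop :=
  x ∈ Pol a b T S ∧ ∀ z ∈ Pol a b T S, c ⬝ᵥ z ≤ c ⬝ᵥ x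

/-- `l` are multipliers of the objective `c` on the rows `I`. -/
def IsMult {ι : Type} {n : ℕ} (a : ι → Fin n → ℝ) (I : Finset ι) (c : Fin n → ℝ)
    (l : ι → ℝ) : Prop :=
  c = ∑ i ∈ I, l i • a i

end Pool.Agent.Lib.S3.Geo
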