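import Pool.Agent.Lib.S3.Geo.Defs

/-!
# Linear algebra of general position
-/

set_option autoImplicit false

namespace Pool.Agent.Lib.S3.Geo

variable {ι : Type} [Fintype ι] [DecidableEq ι] {n : ℕ}


/-- The matrix of the rows in `J`. -/
private noncomputable def rowM (a : ι → Fin n → ℝ) (J : Finset ι) :
    Matrix J (Fin n) ℝ := Matrix.of (fun j : J => a j)

private theorem rowM_apply (a : ι → Fin n → ℝ) (J : Finset ι)
    (u : Fin n → ℝ) (j : J) : (rowM a J).mulVecLin u j = a j ⬝ᵥ u := rfl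

private theorem rowM_surj {a : ι → Fin n → ℝ} {b : ι → ℝ} {T0 : Finset ι} (hG : GP a b T0)
    {J : Finset ι} (hJ : J.card ≤ n) : Function.Surjective (rowM a J).mulVecLin := by
  rw [← LinearMap.range_eq_top]
  apply Submodule.eq_top_of_finrank_eq
  have h1 : LinearIndependent ℝ (rowM a J).row := hG.be J hJ
  have h2 := h1.rank_matrix
  rw [Module.finrank_fintype_fun_eq_card, ← h2]
  rfl

private theorem rowM_inj {a : ι → Fin n → ℝ} {b : ι → ℝ} {T0 : Finset ι} (hG : GP a b T0)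
    {I : Finset ι} (hI : I.card = n) : Function.Injective (rowM a I).mulVecLin := by
  rw [LinearMap.injective_iff_surjective_of_finrank_eq_finrank]
  · exact rowM_surj hG hI.le
  · rw [Module.finrank_fintype_fun_eq_card, Module.finrank_fintype_fun_eq_card, Fintype.card_coe,
      hI, Fintype.card_fin]

theorem dir_exists {a : ι → Fin n → ℝ} {b : ι → ℝ} {T0 : Finset ι} (hG : GP a b T0)
    {I : Finset ι} (hI : I.card = n) {i : ι} (hi : i ∈ I) :
    ∃ r : Fin n → ℝ, a i ⬝ᵥ r = -1 ∧ ∀ j ∈ I, j ≠ i → a j ⬝ᵥ r = 0 := by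
  obtain ⟨r, hr⟩ := rowM_surj hG hI.le (fun j : I => if (j : ι) = i then (-1 : ℝ) else 0)
  refine ⟨r, ?_, fun j hj hji => ?_⟩
  · have h1 := congrFun hr ⟨i, hi⟩
    rw [rowM_apply] at h1
    simpa using h1
  · have h1 := congrFun hr ⟨j, hj⟩
    rw [rowM_apply] at h1
    simpa [hji] using h1

theorem eq_of_tight {a : ι → Fin n → ℝ} {b : ι → ℝ} {T0 : Finset ι} (hG : GP a b T0)
    {I : Finset ι} (hI : I.card = n) {x y : Fin n → ℝ}
    (h : ∀ i ∈ I, a i ⬝ᵥ x = a i ⬝ᵥ y) : x = y := by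
  apply rowM_inj hG hI
  funext j
  rw [rowM_apply, rowM_apply]
  exact h j j.2

theorem exists_orth (a : ι → Fin n → ℝ) {J : Finset ι} (hJ : J.card < n) :
    ∃ u : Fin n → ℝ, u ≠ 0 ∧ ∀ j ∈ J, a j ⬝ᵥ u = 0 := by
  have h1 : LinearMap.ker (rowM a J).mulVecLin ≠ ⊥ := by
    apply LinearMap.ker_ne_bot_of_finrank_lt
    rw [Module.finrank_fintype_fun_eq_card, Module.finrank_fintype_fun_eq_card, Fintype.card_coe,
      Fintype.card_fin]
    exact hJ
  obtain ⟨u, hu, hu0⟩ := Submodule.exists_mem_ne_zero_of_ne_bot h1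
  refine ⟨u, hu0, fun j hj => ?_⟩
  have h2 := congrFun (LinearMap.mem_ker.1 hu) ⟨j, hj⟩
  rw [rowM_apply] at h2
  simpa using h2

theorem line_of_tight {a : ι → Fin n → ℝ} {b : ι → ℝ} {T0 : Finset ι} (hG : GP a b T0)
    {J : Finset ι} (hJ : J.card + 1 = n) {u w : Fin n → ℝ} (hu0 : u ≠ 0)
    (hu : ∀ j ∈ J, a j ⬝ᵥ u = 0) (hw : ∀ j ∈ J, a j ⬝ᵥ w = 0) : ∃ c : ℝ, w = c • u := by
  have hs := rowM_surj hG (J := J) (by omega)
  have h1 := LinearMap.finrank_range_add_finrank_ker (rowM a J).mulVecLin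
  rw [LinearMap.range_eq_top.2 hs, finrank_top, Module.finrank_fintype_fun_eq_card,
    Module.finrank_fintype_fun_eq_card, Fintype.card_coe, Fintype.card_fin] at h1
  have h2 : Module.finrank ℝ (LinearMap.ker (rowM a J).mulVecLin) = 1 := by omega
  have hmem : ∀ z : Fin n → ℝ, (∀ j ∈ J, a j ⬝ᵥ z = 0) →
      z ∈ LinearMap.ker (rowM a J).mulVecLin := by
    intro z hz
    rw [LinearMap.mem_ker]
    funext j
    rw [rowM_apply]
    exact hz j j.2
  have h3 : (⟨u, hmem u hu⟩ : LinearMap.ker (rowM a J).mulVecLin) ≠ 0 := by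
    intro h
    exact hu0 (congrArg Subtype.val h)
  obtain ⟨c, hc⟩ := (finrank_eq_one_iff_of_nonzero' _ h3).1 h2 ⟨w, hmem w hw⟩
  exact ⟨c, (congrArg Subtype.val hc).symm⟩

end Pool.Agent.Lib.S3.Geo
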