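import Pool.Agent.Lib.SHirsch.KGr

/-!
# The diameter of the frozen statement from walks
-/

set_option autoImplicit false

namespace Pool.Agent.Lib.S3.Geo

open Pool.Agent.Lib.SHirsch in
/-- If any two vertices are joined by a walk of length at most `r`, the diameter is at most `r`. -/
theorem dm_le_of_reach {m n : ℕ} {a : Fin m → Fin n → ℝ} {b : Fin m → ℝ} (hG : GPos a b)
    (S : Finset (Fin m)) (r : ℕ)
    (h : ∀ u v : Fin n → ℝ, Vert a b ∅ S u → Vert a b ∅ S v → Reach a b ∅ S r u v) :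
    dm (Pol a b ∅ S) ≤ (r : ℕ∞) := by
  have hvert : ∀ u ∈ Set.extremePoints ℝ (Pol a b ∅ S), Vert a b ∅ S u := by
    intro u hu
    refine ⟨hu.1, ?_⟩
    rw [Finset.empty_union]
    apply le_antisymm _ (extreme_tight hu)
    refine le_trans (Finset.card_le_card ?_) (hG.al u)
    intro i hi
    rw [mem_tt] at hi ⊢
    exact ⟨Finset.mem_univ _, hi.2⟩
  have hwalk : ∀ r : ℕ, ∀ u v : Fin n → ℝ, Reach a b ∅ S r u v →
      ∀ (hu : u ∈ Set.extremePoints ℝ (Pol a b ∅ S)) (hv : v ∈ Set.extremePoints ℝ (Pol a b ∅ S)),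
      ((SimpleGraph.fromRel (fun u v : Fin n → ℝ =>
        IsExtreme ℝ (Pol a b ∅ S) (segment ℝ u v))).induce
        (Set.extremePoints ℝ (Pol a b ∅ S))).edist ⟨u, hu⟩ ⟨v, hv⟩ ≤ (r : ℕ∞) := by
    intro r
    induction r with
    | zero =>
      rintro u v ⟨-, rfl⟩ hu hv
      simp
    | succ r ih =>
      rintro u v ⟨z, h1, h2, h3⟩ hu hv
      have hzv := reach_vert h1
      have hz := vert_extreme hG hzv
      refine le_trans (SimpleGraph.edist_triangle (v := ⟨z, hz⟩)) ?_
      push_cast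
      apply add_le_add (ih u z h1 hu hz)
      rcases h3 with rfl | h3
      · rw [SimpleGraph.edist_self]
        exact zero_le_one
      · apply le_of_eq
        rw [SimpleGraph.edist_eq_one_iff_adj]
        rw [SimpleGraph.induce_adj, SimpleGraph.fromRel_adj]
        exact ⟨h3.1, Or.inl (segment_extreme hG hzv h2 h3)⟩
  unfold dm
  rw [SimpleGraph.ediam_le_iff]
  rintro ⟨u, hu⟩ ⟨v, hv⟩
  apply hwalk
  exact h u v (hvert u hu) (hvert v hv)

end Pool.Agent.Lib.S3.Geo
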