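import Pool.Agent.Lib.S3.Geo.ChartN
import Pool.Agent.Lib.S3.Hop.Main

/-!
# The chart in the language of linear functionals (`Hop.Hat`, `Hop.Vtx`)

`rho a b o` is the slack functional of the row `o : Option (Fin m)` (`none` = infinity), `dotL N`
the chart functional.
-/

set_option autoImplicit false

namespace Pool.Agent.Lib.S3.Geo

open Pool.Agent.Lib.SHirsch (Gr GPos)
open Pool.Agent.Lib.S3.Hop (tig mem_tig Hat Vtx)

variable {m n : ℕ}

/-- The functional of a vector. -/
def dotL {d : ℕ} (c : Fin d → ℝ) : (Fin d → ℝ) →ₗ[ℝ] ℝ where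
  toFun := fun y => c ⬝ᵥ y
  map_add' := fun y z => dotProduct_add c y z
  map_smul' := fun s y => dotProduct_smul s c y

@[simp] theorem dotL_apply {d : ℕ} (c y : Fin d → ℝ) : dotL c y = c ⬝ᵥ y := rfl

theorem exists_dotL {d : ℕ} (f : (Fin d → ℝ) →ₗ[ℝ] ℝ) : ∃ c : Fin d → ℝ, f = dotL c := by
  classical
  refine ⟨fun j => f (Pi.single j 1), LinearMap.ext fun y => ?_⟩
  rw [dotL_apply]
  have h0 : y = ∑ j, y j • (Pi.single j (1 : ℝ) : Fin d → ℝ) := by
    funext k
    rw [Finset.sum_apply]
    simp [Pi.single_apply]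
  conv_lhs => rw [h0]
  rw [map_sum]
  unfold dotProduct
  refine Finset.sum_congr rfl fun j _ => ?_
  rw [map_smul, smul_eq_mul, mul_comm]

/-- The slack functional of a row. -/
def rho (a : Fin m → Fin n → ℝ) (b : Fin m → ℝ) (o : Option (Fin m)) :
    (Fin (n + 1) → ℝ) →ₗ[ℝ] ℝ := dotL (-Gr a b o)

@[simp] theorem rho_apply (a : Fin m → Fin n → ℝ) (b : Fin m → ℝ) (o : Option (Fin m))
    (y : Fin (n + 1) → ℝ) : rho a b o y = -(Gr a b o ⬝ᵥ y) := by
  unfold rho
  rw [dotL_apply, neg_dotProduct]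

/-- The chart is the slice. -/
theorem hat_eq (a : Fin m → Fin n → ℝ) (b : Fin m → ℝ) (N : Fin (n + 1) → ℝ) :
    Hat (rho a b) (dotL N) = Chart a b N := by
  ext y
  unfold Hat Chart Pol
  simp only [Set.mem_ofPred_eq, rho_apply, dotL_apply]
  constructor
  · rintro ⟨h1, h2⟩
    refine ⟨fun o ho => ?_, fun o ho => ?_⟩
    · rw [Finset.mem_singleton.1 ho]
      exact h1
    · match o with
      | none => simp [chS] at ho
      | some o =>
        show Gr a b o ⬝ᵥ y ≤ 0
        have := h2 o
        linarith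
  · rintro ⟨h1, h2⟩
    refine ⟨h1 none (Finset.mem_singleton_self _), fun o => ?_⟩
    have h3 : Gr a b o ⬝ᵥ y ≤ 0 := h2 (some o) (by simp [chS])
    linarith

/-- The embedding of the rows in the chart rows. -/
def emb (m : ℕ) : Option (Fin m) ↪ Option (Option (Fin m)) := ⟨some, Option.some_injective _⟩

/-- The tight rows. -/
theorem tt_eq_tig (a : Fin m → Fin n → ℝ) (b : Fin m → ℝ) {N y : Fin (n + 1) → ℝ}
    (hN : N ⬝ᵥ y = 1) : tt (chA a b N) (chB m) ({none} ∪ chS m) y =
      insert none ((tig (rho a b) y).map (emb m)) := by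
  ext o
  rw [mem_tt, Finset.mem_insert, Finset.mem_map]
  have hU : ∀ o : Option (Option (Fin m)), o ∈ ({none} : Finset _) ∪ chS m := by
    intro o
    by_cases ho : o = none
    · exact Finset.mem_union_left _ (Finset.mem_singleton.2 ho)
    · exact Finset.mem_union_right _ (Finset.mem_erase.2 ⟨ho, Finset.mem_univ _⟩)
  match o with
  | none => simp [chA, chB, hN]
  | some o =>
    constructor
    · rintro ⟨-, h⟩
      have h1 : Gr a b o ⬝ᵥ y = 0 := h
      refine Or.inr ⟨o, ?_, rfl⟩
      rw [mem_tig, rho_apply, h1, neg_zero]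
    · rintro (h | ⟨j, hj, hji⟩)
      · exact absurd h (by simp)
      · have hji' : j = o := Option.some.inj (show some j = some o from hji)
        subst hji'
        refine ⟨hU _, ?_⟩
        rw [mem_tig, rho_apply] at hj
        show Gr a b j ⬝ᵥ y = 0
        linarith

theorem none_not_mem (s : Finset (Option (Fin m))) : none ∉ s.map (emb m) := by
  simp [emb]

theorem card_tt (a : Fin m → Fin n → ℝ) (b : Fin m → ℝ) {N y : Fin (n + 1) → ℝ}
    (hN : N ⬝ᵥ y = 1) : (tt (chA a b N) (chB m) ({none} ∪ chS m) y).card =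
      (tig (rho a b) y).card + 1 := by
  rw [tt_eq_tig a b hN, Finset.card_insert_of_notMem (none_not_mem _), Finset.card_map]

theorem card_common (a : Fin m → Fin n → ℝ) (b : Fin m → ℝ) {N y z : Fin (n + 1) → ℝ}
    (hy : N ⬝ᵥ y = 1) (hz : N ⬝ᵥ z = 1) :
    (tt (chA a b N) (chB m) ({none} ∪ chS m) y ∩
      tt (chA a b N) (chB m) ({none} ∪ chS m) z).card =
      (tig (rho a b) y ∩ tig (rho a b) z).card + 1 := by
  rw [tt_eq_tig a b hy, tt_eq_tig a b hz, ← Finset.insert_inter_distrib,
    Finset.card_insert_of_notMem (fun h => none_not_mem _ (Finset.mem_inter.1 h).1),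
    ← Finset.map_inter, Finset.card_map]

/-- The two notions of vertex agree. -/
theorem vtx_iff {a : Fin m → Fin n → ℝ} {b : Fin m → ℝ} {N : Fin (n + 1) → ℝ}
    (hG : GP (chA a b N) (chB m) {none}) (u : Fin (n + 1) → ℝ) :
    Vtx (rho a b) (dotL N) n u ↔ Vert (chA a b N) (chB m) {none} (chS m) u := by
  constructor
  · intro h
    have hmem := h.mem
    rw [hat_eq] at hmem
    refine ⟨hmem, ?_⟩
    have hN : N ⬝ᵥ u = 1 := hmem.1 none (Finset.mem_singleton_self _)
    rw [card_tt a b hN, h.card]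
  · intro h
    have hN : N ⬝ᵥ u = 1 := h.1.1 none (Finset.mem_singleton_self _)
    have hcard := h.2
    refine ⟨?_, ?_, ?_, ?_⟩
    · rw [hat_eq]
      exact h.1
    · rw [card_tt a b hN] at hcard
      omega
    · intro f
      obtain ⟨c, rfl⟩ := exists_dotL f
      obtain ⟨l, hl⟩ := exists_mult hG hcard c
      refine ⟨l none, fun o => -l (some o), fun y => ?_⟩
      unfold IsMult at hl
      rw [dotL_apply, dotL_apply, hl, sum_dotProduct, tt_eq_tig a b hN,
        Finset.sum_insert (none_not_mem _), Finset.sum_map]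
      rw [smul_dotProduct, smul_eq_mul]
      congr 1
      refine Finset.sum_congr rfl fun o _ => ?_
      rw [smul_dotProduct, smul_eq_mul, rho_apply]
      show l (some o) * (Gr a b o ⬝ᵥ y) = _
      ring
    · intro s
      have hsurj : ∃ y : Fin (n + 1) → ℝ,
          ∀ i ∈ tt (chA a b N) (chB m) ({none} ∪ chS m) u,
            chA a b N i ⬝ᵥ y = (match i with | none => 1 | some o => -s o : ℝ) := by
        have h1 := hG.be _ hcard.le
        have h2 : Function.Surjective (Matrix.of fun j :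
            (tt (chA a b N) (chB m) ({none} ∪ chS m) u : Finset _) =>
              chA a b N j).mulVecLin := by
          rw [← LinearMap.range_eq_top]
          apply Submodule.eq_top_of_finrank_eq
          have h3 : LinearIndependent ℝ (Matrix.of fun j :
            (tt (chA a b N) (chB m) ({none} ∪ chS m) u : Finset _) => chA a b N j).row := h1
          have h4 := h3.rank_matrix
          rw [Module.finrank_fintype_fun_eq_card, ← h4]
          rfl
        obtain ⟨y, hy⟩ := h2 (fun j => (match (j : Option (Option (Fin m))) with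
          | none => 1 | some o => -s o : ℝ))
        refine ⟨y, fun i hi => ?_⟩
        exact congrFun hy ⟨i, hi⟩
      obtain ⟨y, hy⟩ := hsurj
      refine ⟨y, ?_, fun j hj => ?_⟩
      · rw [dotL_apply]
        exact hy none (by rw [tt_eq_tig a b hN]; exact Finset.mem_insert_self _ _)
      · have h1 := hy (some j) (by
          rw [tt_eq_tig a b hN]
          exact Finset.mem_insert_of_mem (Finset.mem_map.2 ⟨j, hj, rfl⟩))
        rw [rho_apply]
        have h2 : Gr a b j ⬝ᵥ y = -s j := h1
        rw [h2, neg_neg]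

/-- Every nonempty face of the chart has a vertex that minimises `g`. -/
theorem hface {a : Fin m → Fin n → ℝ} {b : Fin m → ℝ} {N : Fin (n + 1) → ℝ}
    (hG : GP (chA a b N) (chB m) {none}) (hbd : Bornology.IsBounded (Chart a b N))
    (R : Finset (Option (Fin m))) (g : (Fin (n + 1) → ℝ) →ₗ[ℝ] ℝ)
    (hne : ∃ p ∈ Hat (rho a b) (dotL N), ∀ r ∈ R, rho a b r p = 0) :
    ∃ u', Vtx (rho a b) (dotL N) n u' ∧ (∀ r ∈ R, rho a b r u' = 0) ∧
      ∀ p ∈ Hat (rho a b) (dotL N), (∀ r ∈ R, rho a b r p = 0) → g u' ≤ g p := by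
  classical
  obtain ⟨c, rfl⟩ := exists_dotL g
  have hmem : ∀ p : Fin (n + 1) → ℝ, p ∈ Pol (chA a b N) (chB m)
      ({none} ∪ R.map (emb m)) (chS m) ↔
      p ∈ Hat (rho a b) (dotL N) ∧ ∀ r ∈ R, rho a b r p = 0 := by
    intro p
    rw [hat_eq]
    constructor
    · rintro ⟨h1, h2⟩
      refine ⟨⟨fun i hi => h1 i (Finset.mem_union_left _ hi), h2⟩, fun r hr => ?_⟩
      have h3 : Gr a b r ⬝ᵥ p = 0 :=
        h1 (some r) (Finset.mem_union_right _ (Finset.mem_map.2 ⟨r, hr, rfl⟩))
      rw [rho_apply, h3, neg_zero]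
    · rintro ⟨⟨h1, h2⟩, h3⟩
      refine ⟨fun i hi => ?_, h2⟩
      rcases Finset.mem_union.1 hi with hi | hi
      · exact h1 i hi
      · obtain ⟨r, hr, rfl⟩ := Finset.mem_map.1 hi
        have h4 := h3 r hr
        rw [rho_apply] at h4
        show Gr a b r ⬝ᵥ p = 0
        linarith
  obtain ⟨p, hp, hpR⟩ := hne
  have hsub : Pol (chA a b N) (chB m) ({none} ∪ R.map (emb m)) (chS m) ⊆ Chart a b N := by
    intro p hp
    have := ((hmem p).1 hp).1
    rwa [hat_eq] at this
  obtain ⟨u, hu, hopt⟩ := exists_opt hG (T := {none} ∪ R.map (emb m)) (S := chS m)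
    Finset.subset_union_left ⟨p, (hmem p).2 ⟨hp, hpR⟩⟩ (hbd.subset hsub) (-c)
  refine ⟨u, ?_, ((hmem u).1 hu.1).2, fun q hq hqR => ?_⟩
  · rw [vtx_iff hG]
    refine ⟨hsub hu.1, ?_⟩
    have h1 : ({none} ∪ R.map (emb m)) ∪ chS m = {none} ∪ chS m := by
      ext i
      simp only [Finset.mem_union, chS, Finset.mem_erase, Finset.mem_univ, and_true,
        Finset.mem_singleton]
      constructor
      · rintro ((h | h) | h)
        · exact Or.inl h
        · right
          rintro rfl
          exact none_not_mem _ h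
        · exact Or.inr h
      · rintro (h | h)
        · exact Or.inl (Or.inl h)
        · exact Or.inr h
    rw [← h1]
    exact hu.2
  · have h1 := hopt.2 q ((hmem q).2 ⟨hq, hqR⟩)
    rw [neg_dotProduct, neg_dotProduct] at h1
    rw [dotL_apply, dotL_apply]
    linarith

end Pool.Agent.Lib.S3.Geo
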