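import Pool.Agent.Lib.S3.Geo.ChartN
import Pool.Agent.Lib.S3.Leg.Win

/-!
# The structure `Leg.Geo` from the geometry layer

For rows `ρ : κ → Fin d → ℝ` (slacks `ρ r ⬝ᵥ x ≥ 0`) and a chart functional `N`: `cA ρ N`, `cB κ`
are the rows `N x = 1`, `-ρ r x ≤ 0`. `leg_geo` discharges `Leg.Geo` on every nonempty face.
-/

set_option autoImplicit false

namespace Pool.Agent.Lib.S3.Geo

open Pool.Agent.Lib.SHirsch (Gr GPos)
open Pool.Agent.Lib.S3.Leg (Fe Mn tgt Mult)

variable {κ : Type} [Fintype κ] [DecidableEq κ] {d : ℕ}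

/-- The rows of the chart. -/
def cA (ρ : κ → Fin d → ℝ) (N : Fin d → ℝ) : Option κ → Fin d → ℝ
  | none => N
  | some r => -ρ r

/-- The right hand sides of the chart. -/
def cB (κ : Type) : Option κ → ℝ
  | none => 1
  | some _ => 0

/-- The inequality rows. -/
def cS (κ : Type) [Fintype κ] [DecidableEq κ] : Finset (Option κ) := Finset.univ.erase none

/-- The chart rows of the problem are of this form. -/
theorem chA_eq {m n : ℕ} (a : Fin m → Fin n → ℝ) (b : Fin m → ℝ) (N : Fin (n + 1) → ℝ) :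
    chA a b N = cA (fun o => -Gr a b o) N := by
  funext o
  match o with
  | none => rfl
  | some o =>
    show Gr a b o = - -Gr a b o
    rw [neg_neg]

theorem chB_eq (m : ℕ) : chB m = cB (Option (Fin m)) := by
  funext o
  match o with
  | none => rfl
  | some o => rfl

theorem chS_eq (m : ℕ) : chS m = cS (Option (Fin m)) := rfl

omit [Fintype κ] [DecidableEq κ] in
theorem cA_none (ρ : κ → Fin d → ℝ) (N : Fin d → ℝ) : cA ρ N none = N := rfl

omit [Fintype κ] [DecidableEq κ] in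
theorem cA_some (ρ : κ → Fin d → ℝ) (N : Fin d → ℝ) (r : κ) : cA ρ N (some r) = -ρ r := rfl

/-- The embedding of the rows. -/
def ce (κ : Type) : κ ↪ Option κ := ⟨some, Option.some_injective _⟩

omit [Fintype κ] [DecidableEq κ] in
theorem none_notMem_map (s : Finset κ) : none ∉ s.map (ce κ) := by
  simp [ce]

/-- The face `R` of the chart. -/
theorem fe_iff (ρ : κ → Fin d → ℝ) (N : Fin d → ℝ) (R : Finset κ) (x : Fin d → ℝ) :
    Fe ρ N R x ↔ x ∈ Pol (cA ρ N) (cB κ) ({none} ∪ R.map (ce κ)) (cS κ) := by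
  constructor
  · rintro ⟨h1, h2, h3⟩
    refine ⟨fun o ho => ?_, fun o ho => ?_⟩
    · rcases Finset.mem_union.1 ho with ho | ho
      · rw [Finset.mem_singleton.1 ho]
        exact h3
      · obtain ⟨r, hr, rfl⟩ := Finset.mem_map.1 ho
        show -ρ r ⬝ᵥ x = 0
        rw [neg_dotProduct, h2 r hr, neg_zero]
    · match o with
      | none => simp [cS] at ho
      | some r =>
        show -ρ r ⬝ᵥ x ≤ 0
        rw [neg_dotProduct]
        have := h1 r
        linarith
  · rintro ⟨h1, h2⟩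
    refine ⟨fun r => ?_, fun r hr => ?_, ?_⟩
    · have h3 : -ρ r ⬝ᵥ x ≤ 0 := h2 (some r) (by simp [cS])
      rw [neg_dotProduct] at h3
      linarith
    · have h3 : -ρ r ⬝ᵥ x = 0 :=
        h1 (some r) (Finset.mem_union_right _ (Finset.mem_map.2 ⟨r, hr, rfl⟩))
      rw [neg_dotProduct] at h3
      linarith
    · exact h1 none (Finset.mem_union_left _ (Finset.mem_singleton_self _))

theorem fe_empty_iff (ρ : κ → Fin d → ℝ) (N : Fin d → ℝ) (x : Fin d → ℝ) :
    Fe ρ N ∅ x ↔ x ∈ Pol (cA ρ N) (cB κ) {none} (cS κ) := by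
  rw [fe_iff, Finset.map_empty, Finset.union_empty]

theorem union_rows (R : Finset κ) :
    ({none} ∪ R.map (ce κ)) ∪ cS κ = {none} ∪ cS κ := by
  ext i
  simp only [Finset.mem_union, cS, Finset.mem_erase, Finset.mem_univ, and_true,
    Finset.mem_singleton]
  constructor
  · rintro ((h | h) | h)
    · exact Or.inl h
    · right
      rintro rfl
      exact none_notMem_map _ h
    · exact Or.inr h
  · rintro (h | h)
    · exact Or.inl (Or.inl h)
    · exact Or.inr h

/-- The tight rows. -/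
theorem tt_tgt (ρ : κ → Fin d → ℝ) {N x : Fin d → ℝ} (hN : N ⬝ᵥ x = 1) :
    tt (cA ρ N) (cB κ) ({none} ∪ cS κ) x = insert none ((tgt ρ x).map (ce κ)) := by
  ext o
  rw [mem_tt, Finset.mem_insert, Finset.mem_map]
  have hU : ∀ o : Option κ, o ∈ ({none} : Finset _) ∪ cS κ := by
    intro o
    by_cases ho : o = none
    · exact Finset.mem_union_left _ (Finset.mem_singleton.2 ho)
    · exact Finset.mem_union_right _ (Finset.mem_erase.2 ⟨ho, Finset.mem_univ _⟩)
  match o with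
  | none => simp [cA, cB, hN]
  | some r =>
    constructor
    · rintro ⟨-, h⟩
      have h1 : -ρ r ⬝ᵥ x = 0 := h
      rw [neg_dotProduct] at h1
      exact Or.inr ⟨r, Leg.mem_tgt.2 (by linarith), rfl⟩
    · rintro (h | ⟨j, hj, hji⟩)
      · exact absurd h (by simp)
      · have hji' : j = r := Option.some.inj (show some j = some r from hji)
        subst hji'
        refine ⟨hU _, ?_⟩
        show -ρ j ⬝ᵥ x = 0
        rw [neg_dotProduct, Leg.mem_tgt.1 hj, neg_zero]

theorem card_tt_tgt (ρ : κ → Fin d → ℝ) {N x : Fin d → ℝ} (hN : N ⬝ᵥ x = 1) :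
    (tt (cA ρ N) (cB κ) ({none} ∪ cS κ) x).card = (tgt ρ x).card + 1 := by
  rw [tt_tgt ρ hN, Finset.card_insert_of_notMem (none_notMem_map _), Finset.card_map]

theorem card_common_tgt (ρ : κ → Fin d → ℝ) {N x y : Fin d → ℝ} (hx : N ⬝ᵥ x = 1)
    (hy : N ⬝ᵥ y = 1) :
    (tt (cA ρ N) (cB κ) ({none} ∪ cS κ) x ∩ tt (cA ρ N) (cB κ) ({none} ∪ cS κ) y).card =
      (tgt ρ x ∩ tgt ρ y).card + 1 := by
  rw [tt_tgt ρ hx, tt_tgt ρ hy, ← Finset.insert_inter_distrib,
    Finset.card_insert_of_notMem (fun h => none_notMem_map _ (Finset.mem_inter.1 h).1),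
    ← Finset.map_inter, Finset.card_map]

/-- Minimising on the face. -/
theorem mn_iff (ρ : κ → Fin d → ℝ) (N : Fin d → ℝ) (R : Finset κ) (Γ x : Fin d → ℝ) :
    Mn ρ N R Γ x ↔ IsOpt (cA ρ N) (cB κ) ({none} ∪ R.map (ce κ)) (cS κ) (-Γ) x := by
  unfold Mn IsOpt
  rw [fe_iff]
  refine and_congr_right fun _ => ?_
  constructor
  · intro h z hz
    have := h z ((fe_iff ρ N R z).2 hz)
    rw [neg_dotProduct, neg_dotProduct]
    linarith
  · intro h z hz
    have := h z ((fe_iff ρ N R z).1 hz)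
    rw [neg_dotProduct, neg_dotProduct] at this
    linarith

/-- A vertex of the chart in the face `R` is a vertex of the face. -/
theorem vert_face_of {ρ : κ → Fin d → ℝ} {N : Fin d → ℝ} {R : Finset κ} {x : Fin d → ℝ}
    (hx : Vert (cA ρ N) (cB κ) {none} (cS κ) x) (hF : Fe ρ N R x) :
    Vert (cA ρ N) (cB κ) ({none} ∪ R.map (ce κ)) (cS κ) x := by
  refine ⟨(fe_iff ρ N R x).1 hF, ?_⟩
  rw [union_rows]
  exact hx.2

theorem vert_of_face {ρ : κ → Fin d → ℝ} {N : Fin d → ℝ} {R : Finset κ} {x : Fin d → ℝ}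
    (hx : Vert (cA ρ N) (cB κ) ({none} ∪ R.map (ce κ)) (cS κ) x) :
    Vert (cA ρ N) (cB κ) {none} (cS κ) x := by
  refine ⟨⟨fun i hi => hx.1.1 i (Finset.mem_union_left _ hi), hx.1.2⟩, ?_⟩
  rw [← union_rows R]
  exact hx.2

/-- Multipliers at an optimal vertex of a face. -/
theorem exists_Mult {ρ : κ → Fin d → ℝ} {N : Fin d → ℝ} (hG : GP (cA ρ N) (cB κ) {none})
    {R : Finset κ} {Γ x : Fin d → ℝ} (hx : Vert (cA ρ N) (cB κ) {none} (cS κ) x)
    (hm : Mn ρ N R Γ x) : ∃ lam : κ → ℝ, Mult ρ N R Γ x lam := by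
  have hxf := vert_face_of hx hm.1
  have hN : N ⬝ᵥ x = 1 := hm.1.2.2
  obtain ⟨l, hl⟩ := exists_mult hG hxf.2 (-Γ)
  rw [mn_iff] at hm
  have hnn : ∀ i ∈ tt (cA ρ N) (cB κ) (({none} ∪ R.map (ce κ)) ∪ cS κ) x,
      i ∉ ({none} ∪ R.map (ce κ) : Finset (Option κ)) → 0 ≤ l i :=
    fun i hi hiT => mult_nonneg hG Finset.subset_union_left hxf hm hl hi hiT
  rw [union_rows, tt_tgt ρ hN] at hl hnn
  refine ⟨fun r => if r ∈ tgt ρ x then l (some r) else 0, ?_, ?_, -l none, ?_⟩
  · intro r hr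
    exact if_neg hr
  · intro r hr
    by_cases hrt : r ∈ tgt ρ x
    · refine le_of_le_of_eq ?_ (if_pos hrt).symm
      refine hnn (some r) (Finset.mem_insert_of_mem (Finset.mem_map.2 ⟨r, hrt, rfl⟩)) ?_
      intro h
      rcases Finset.mem_union.1 h with h | h
      · exact absurd (Finset.mem_singleton.1 h) (by simp)
      · obtain ⟨j, hj, hji⟩ := Finset.mem_map.1 h
        have hji' : j = r := Option.some.inj (show some j = some r from hji)
        exact hr (hji' ▸ hj)
    · exact le_of_eq (if_neg hrt).symm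
  · unfold IsMult at hl
    rw [Finset.sum_insert (none_notMem_map _), Finset.sum_map] at hl
    have h1 : Γ = -(-Γ) := (neg_neg Γ).symm
    rw [h1, hl, neg_add]
    congr 1
    · rw [cA_none, neg_smul]
    · rw [← Finset.sum_neg_distrib]
      rw [← Finset.sum_subset (Finset.subset_univ (tgt ρ x))
        (f := fun r => (if r ∈ tgt ρ x then l (some r) else 0) • ρ r)]
      · refine Finset.sum_congr rfl fun r hr => ?_
        show -(l (some r) • cA ρ N (some r)) = _
        rw [if_pos hr, cA_some, smul_neg, neg_neg]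
      · intro r _ hr
        rw [if_neg hr, zero_smul]

/-- Walks between vertices with few leaving rows. -/
theorem reach_of_leaving {ρ : κ → Fin d → ℝ} {N : Fin d → ℝ}
    (hG : GP (cA ρ N) (cB κ) {none}) {x y : Fin d → ℝ}
    (hx : Vert (cA ρ N) (cB κ) {none} (cS κ) x) (hy : Vert (cA ρ N) (cB κ) {none} (cS κ) y)
    {h : ℕ} (hc : (tgt ρ x \ tgt ρ y).card ≤ h) :
    Reach (cA ρ N) (cB κ) {none} (cS κ) ((Fintype.card κ + 1) ^ h) x y := by
  have hNx : N ⬝ᵥ x = 1 := hx.1.1 none (Finset.mem_singleton_self _)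
  have hNy : N ⬝ᵥ y = 1 := hy.1.1 none (Finset.mem_singleton_self _)
  have h1 : d ≤ (tt (cA ρ N) (cB κ) ({none} ∪ cS κ) x ∩
      tt (cA ρ N) (cB κ) ({none} ∪ cS κ) y).card + h := by
    have h2 := hx.2
    rw [card_tt_tgt ρ hNx] at h2
    rw [card_common_tgt ρ hNx hNy]
    have h3 := Finset.card_sdiff_add_card_inter (tgt ρ x) (tgt ρ y)
    omega
  have h4 := reach_common hG (Finset.Subset.refl _) hx hy h1
  rwa [Fintype.card_option] at h4

/-- The structure `Leg.Geo` on a nonempty face of a bounded chart. -/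
theorem leg_geo {ρ : κ → Fin d → ℝ} {N : Fin d → ℝ} (hG : GP (cA ρ N) (cB κ) {none})
    (hbd : Bornology.IsBounded {x | Fe ρ N ∅ x}) {R : Finset κ} (hne : ∃ p, Fe ρ N R p) (h : ℕ) :
    Leg.Geo ρ N R (Vert (cA ρ N) (cB κ) {none} (cS κ))
      (Reach (cA ρ N) (cB κ) {none} (cS κ)) h ((Fintype.card κ + 1) ^ h) where
  ex := by
    intro Γ
    obtain ⟨p, hp⟩ := hne
    have hb : Bornology.IsBounded (Pol (cA ρ N) (cB κ) ({none} ∪ R.map (ce κ)) (cS κ)) := by
      refine hbd.subset fun y hy => ?_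
      have h1 := (fe_iff ρ N R y).2 hy
      exact ⟨h1.1, by simp, h1.2.2⟩
    obtain ⟨x, hx, hopt⟩ := exists_opt hG (T := {none} ∪ R.map (ce κ)) (S := cS κ)
      Finset.subset_union_left ⟨p, (fe_iff ρ N R p).1 hp⟩ hb (-Γ)
    exact ⟨x, vert_of_face hx, (mn_iff ρ N R Γ x).2 hopt⟩
  mul := fun Γ x hx hm => exists_Mult hG hx hm
  win := fun x y hx hy _ _ hc => reach_of_leaving hG hx hy hc
  refl := fun x hx => ⟨hx, rfl⟩
  trans := fun _ _ _ _ _ h1 h2 => reach_trans h1 h2

/-- The chart of the problem is bounded in the form used by `leg_geo`. -/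
theorem bounded_fe {m n : ℕ} {a : Fin m → Fin n → ℝ} {b : Fin m → ℝ} {N : Fin (n + 1) → ℝ}
    (hbd : Bornology.IsBounded (Chart a b N)) :
    Bornology.IsBounded {x | Fe (fun o => -Gr a b o) N ∅ x} := by
  refine hbd.subset fun x hx => ?_
  have h1 := (fe_empty_iff (fun o => -Gr a b o) N x).1 hx
  unfold Chart
  rw [chA_eq, chB_eq, chS_eq]
  exact h1

end Pool.Agent.Lib.S3.Geo
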