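import Pool.Agent.Lib.S3.Geo.Face

/-!
# Linear programs over `Pol T S`: multipliers, duality identity, windows, deletion of rows

* `exists_mult`, `mult_unique`: every objective has unique multipliers on `n` rows;
* `dual_id`: `c x - c z = Σ l_i (b_i - a_i z)`;
* `opt_of_mult`, `mult_nonneg`: a vertex is optimal iff the multipliers outside `T` are `≥ 0`;
* `opt_unique`: positive multipliers give uniqueness;
* `window`, `window_le`: `x` optimal for `c`, `z` optimal for `c'`;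
* `exists_small`, `opt_delete`, `opt_sub`: deleting non tight rows, going to a smaller polyhedron;
* `mult_shift`: adding `Σ t_r a_r` over rows of `I` moves exactly these multipliers;
* `exists_opt`: a nonempty bounded polyhedron has an optimal vertex.
-/

set_option autoImplicit false

namespace Pool.Agent.Lib.S3.Geo

variable {ι : Type} [Fintype ι] [DecidableEq ι] {n : ℕ}

omit [DecidableEq ι] in
/-- Every objective has multipliers on `n` rows in general position. -/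
theorem exists_mult {a : ι → Fin n → ℝ} {b : ι → ℝ} {T0 : Finset ι} (hG : GP a b T0)
    {I : Finset ι} (hI : I.card = n) (c : Fin n → ℝ) : ∃ l : ι → ℝ, IsMult a I c l := by
  classical
  have h1 := hG.be I hI.le
  have hcard : Fintype.card I = Module.finrank ℝ (Fin n → ℝ) := by
    rw [Fintype.card_coe, hI, Module.finrank_fintype_fun_eq_card, Fintype.card_fin]
  have h2 := h1.span_eq_top_of_card_eq_finrank' hcard
  have h3 : c ∈ Submodule.span ℝ (Set.range fun i : I => a i) := by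
    rw [h2]; exact Submodule.mem_top
  obtain ⟨f, hf⟩ := (Submodule.mem_span_range_iff_exists_fun ℝ).1 h3
  refine ⟨fun i => if h : i ∈ I then f ⟨i, h⟩ else 0, ?_⟩
  unfold IsMult
  rw [← hf, ← Finset.sum_coe_sort I]
  refine Finset.sum_congr rfl fun i _ => ?_
  simp

omit [DecidableEq ι] in
/-- The multipliers are unique. -/
theorem mult_unique {a : ι → Fin n → ℝ} {b : ι → ℝ} {T0 : Finset ι} (hG : GP a b T0)
    {I : Finset ι} (hI : I.card ≤ n) {c : Fin n → ℝ} {l l' : ι → ℝ} (h : IsMult a I c l)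
    (h' : IsMult a I c l') {i : ι} (hi : i ∈ I) : l i = l' i := by
  have h1 := hG.be I hI
  rw [Fintype.linearIndependent_iff] at h1
  have h2 := h1 (fun i => l i - l' i) (by
    have h3 : ∑ i ∈ I, (l i - l' i) • a i = 0 := by
      simp only [sub_smul, Finset.sum_sub_distrib]
      rw [← h, ← h', sub_self]
    rw [← Finset.sum_coe_sort I] at h3
    exact h3) ⟨i, hi⟩
  exact sub_eq_zero.1 h2

omit [Fintype ι] [DecidableEq ι] in
/-- The duality identity. -/
theorem dual_id {a : ι → Fin n → ℝ} {b : ι → ℝ} {I : Finset ι} {c : Fin n → ℝ} {l : ι → ℝ}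
    (h : IsMult a I c l) {x : Fin n → ℝ} (hx : ∀ i ∈ I, a i ⬝ᵥ x = b i) (z : Fin n → ℝ) :
    c ⬝ᵥ x - c ⬝ᵥ z = ∑ i ∈ I, l i * (b i - a i ⬝ᵥ z) := by
  unfold IsMult at h
  rw [h, sum_dotProduct, sum_dotProduct, ← Finset.sum_sub_distrib]
  refine Finset.sum_congr rfl fun i hi => ?_
  rw [smul_dotProduct, smul_dotProduct, hx i hi, smul_eq_mul, smul_eq_mul]
  ring

omit [Fintype ι] [DecidableEq ι] in
/-- Nonnegative multipliers outside `T` prove optimality. -/
theorem opt_of_mult {a : ι → Fin n → ℝ} {b : ι → ℝ} {T S I : Finset ι} {c : Fin n → ℝ}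
    {l : ι → ℝ} (h : IsMult a I c l) {x : Fin n → ℝ} (hxP : x ∈ Pol a b T S)
    (hx : ∀ i ∈ I, a i ⬝ᵥ x = b i) (hIS : ∀ i ∈ I, i ∈ T ∨ i ∈ S)
    (hl : ∀ i ∈ I, i ∉ T → 0 ≤ l i) : IsOpt a b T S c x := by
  refine ⟨hxP, fun z hz => ?_⟩
  have h1 := dual_id h hx z
  have h2 : 0 ≤ ∑ i ∈ I, l i * (b i - a i ⬝ᵥ z) := by
    refine Finset.sum_nonneg fun i hi => ?_
    by_cases hiT : i ∈ T
    · rw [hz.1 i hiT, sub_self, mul_zero]
    · refine mul_nonneg (hl i hi hiT) ?_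
      have := hz.2 i ((hIS i hi).resolve_left hiT)
      linarith
  linarith

/-- The multipliers of an optimal vertex are nonnegative outside `T`. -/
theorem mult_nonneg {a : ι → Fin n → ℝ} {b : ι → ℝ} {T0 : Finset ι} (hG : GP a b T0)
    {T S : Finset ι} (hT0 : T0 ⊆ T) {c : Fin n → ℝ} {x : Fin n → ℝ} (hx : Vert a b T S x)
    (hopt : IsOpt a b T S c x) {l : ι → ℝ} (h : IsMult a (tt a b (T ∪ S) x) c l) {i : ι}
    (hi : i ∈ tt a b (T ∪ S) x) (hiT : i ∉ T) : 0 ≤ l i := by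
  obtain ⟨r, hr1, hr0⟩ := dir_exists hG hx.2 hi
  have hcr : c ⬝ᵥ r = -l i := by
    unfold IsMult at h
    rw [h, sum_dotProduct, Finset.sum_eq_single_of_mem i hi]
    · rw [smul_dotProduct, hr1, smul_eq_mul]
      ring
    · intro j hj hji
      rw [smul_dotProduct, hr0 j hj hji, smul_zero]
  obtain ⟨s, hs, hsP⟩ : ∃ s : ℝ, 0 < s ∧ x + s • r ∈ Pol a b T S := by
    by_cases h1 : x + (1 : ℝ) • r ∈ Pol a b T S
    · exact ⟨1, one_pos, h1⟩
    · obtain ⟨s, hs, -, hv, -⟩ := exit_lemma hG hT0 hx hi hiT hr1 hr0 one_pos h1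
      exact ⟨s, hs, hv.1⟩
  have h1 := hopt.2 _ hsP
  rw [dotProduct_add, dotProduct_smul, hcr, smul_eq_mul] at h1
  have h2 : 0 ≤ s * l i := by linarith
  exact nonneg_of_mul_nonneg_right h2 hs

/-- Positive multipliers outside `T` give uniqueness of the optimum. -/
theorem opt_unique {a : ι → Fin n → ℝ} {b : ι → ℝ} {T0 : Finset ι} (hG : GP a b T0)
    {T S : Finset ι} {c : Fin n → ℝ} {x z : Fin n → ℝ} (hx : Vert a b T S x)
    {l : ι → ℝ} (h : IsMult a (tt a b (T ∪ S) x) c l)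
    (hl : ∀ i ∈ tt a b (T ∪ S) x, i ∉ T → 0 < l i) (hz : IsOpt a b T S c z) : z = x := by
  have hxt : ∀ i ∈ tt a b (T ∪ S) x, a i ⬝ᵥ x = b i := fun i hi => (mem_tt.1 hi).2
  have h1 := dual_id h hxt z
  have h2 := hz.2 x hx.1
  have hnn : ∀ i ∈ tt a b (T ∪ S) x, 0 ≤ l i * (b i - a i ⬝ᵥ z) := by
    intro i hi
    by_cases hiT : i ∈ T
    · rw [hz.1.1 i hiT, sub_self, mul_zero]
    · refine mul_nonneg (hl i hi hiT).le ?_
      have := hz.1.2 i ((Finset.mem_union.1 (mem_tt.1 hi).1).resolve_left hiT)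
      linarith
  have h3 : ∑ i ∈ tt a b (T ∪ S) x, l i * (b i - a i ⬝ᵥ z) = 0 :=
    le_antisymm (by linarith) (Finset.sum_nonneg hnn)
  have h4 := (Finset.sum_eq_zero_iff_of_nonneg hnn).1 h3
  refine (eq_of_tight hG hx.2 fun i hi => ?_).symm
  rw [hxt i hi]
  by_cases hiT : i ∈ T
  · exact (hz.1.1 i hiT).symm
  · have h5 := h4 i hi
    rcases mul_eq_zero.1 h5 with h6 | h6
    · exact absurd h6 (hl i hi hiT).ne'
    · linarith

omit [Fintype ι] in
/-- The window inequality: `x` with multipliers `l` for `c`, `z` optimal for `c'`. -/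
theorem window {a : ι → Fin n → ℝ} {b : ι → ℝ} {T S : Finset ι} {c c' : Fin n → ℝ}
    {x z : Fin n → ℝ} (hx : x ∈ Pol a b T S) {l : ι → ℝ}
    (h : IsMult a (tt a b (T ∪ S) x) c l) (hz : IsOpt a b T S c' z) :
    ∑ i ∈ tt a b (T ∪ S) x \ T, l i * (b i - a i ⬝ᵥ z) ≤ (c' - c) ⬝ᵥ (z - x) := by
  have hxt : ∀ i ∈ tt a b (T ∪ S) x, a i ⬝ᵥ x = b i := fun i hi => (mem_tt.1 hi).2
  have h1 := dual_id h hxt z
  have h2 := hz.2 x hx
  have h3 : ∑ i ∈ tt a b (T ∪ S) x \ T, l i * (b i - a i ⬝ᵥ z) =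
      ∑ i ∈ tt a b (T ∪ S) x, l i * (b i - a i ⬝ᵥ z) := by
    refine Finset.sum_subset Finset.sdiff_subset fun i hi hi' => ?_
    have hiT : i ∈ T := by
      by_contra hc
      exact hi' (Finset.mem_sdiff.2 ⟨hi, hc⟩)
    rw [hz.1.1 i hiT, sub_self, mul_zero]
  rw [h3, ← h1, sub_dotProduct, dotProduct_sub, dotProduct_sub]
  linarith

/-- One row of the window inequality. -/
theorem window_le {a : ι → Fin n → ℝ} {b : ι → ℝ} {T0 : Finset ι} (hG : GP a b T0)
    {T S : Finset ι} (hT0 : T0 ⊆ T) {c c' : Fin n → ℝ}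
    {x z : Fin n → ℝ} (hx : Vert a b T S x) (hxo : IsOpt a b T S c x) {l : ι → ℝ}
    (h : IsMult a (tt a b (T ∪ S) x) c l) (hz : IsOpt a b T S c' z) {i : ι}
    (hi : i ∈ tt a b (T ∪ S) x) (hiT : i ∉ T) :
    l i * (b i - a i ⬝ᵥ z) ≤ (c' - c) ⬝ᵥ (z - x) := by
  refine le_trans ?_ (window hx.1 h hz)
  refine Finset.single_le_sum (f := fun i => l i * (b i - a i ⬝ᵥ z)) (fun j hj => ?_)
    (Finset.mem_sdiff.2 ⟨hi, hiT⟩)
  obtain ⟨hj1, hj2⟩ := Finset.mem_sdiff.1 hj
  refine mul_nonneg (mult_nonneg hG hT0 hx hxo h hj1 hj2) ?_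
  have := hz.1.2 j ((Finset.mem_union.1 (mem_tt.1 hj1).1).resolve_left hj2)
  linarith

omit [Fintype ι] in
/-- Few small multipliers and few large leaving rows: many common tight rows. -/
theorem common_of_few {a : ι → Fin n → ℝ} {b : ι → ℝ} {T S : Finset ι}
    {x z : Fin n → ℝ} (hx : Vert a b T S x) (hz : z ∈ Pol a b T S) {l : ι → ℝ} {τ : ℝ} {q d : ℕ}
    (hq : ((tt a b (T ∪ S) x \ T).filter fun i => l i < τ).card ≤ q)
    (hd : ((tt a b (T ∪ S) x \ T).filter fun i => τ ≤ l i ∧ a i ⬝ᵥ z < b i).card ≤ d) :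
    n ≤ (tt a b (T ∪ S) x ∩ tt a b (T ∪ S) z).card + (q + d) := by
  have h1 : tt a b (T ∪ S) x ⊆ (tt a b (T ∪ S) x ∩ tt a b (T ∪ S) z) ∪
      (((tt a b (T ∪ S) x \ T).filter fun i => l i < τ) ∪
        ((tt a b (T ∪ S) x \ T).filter fun i => τ ≤ l i ∧ a i ⬝ᵥ z < b i)) := by
    intro i hi
    have hi' := mem_tt.1 hi
    rw [Finset.mem_union, Finset.mem_inter, Finset.mem_union, Finset.mem_filter,
      Finset.mem_filter, Finset.mem_sdiff]
    by_cases hiT : i ∈ T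
    · exact Or.inl ⟨hi, mem_tt.2 ⟨hi'.1, hz.1 i hiT⟩⟩
    · by_cases hl : l i < τ
      · exact Or.inr (Or.inl ⟨⟨hi, hiT⟩, hl⟩)
      · have h2 := hz.2 i ((Finset.mem_union.1 hi'.1).resolve_left hiT)
        rcases h2.lt_or_eq with h3 | h3
        · exact Or.inr (Or.inr ⟨⟨hi, hiT⟩, not_lt.1 hl, h3⟩)
        · exact Or.inl ⟨hi, mem_tt.2 ⟨hi'.1, h3⟩⟩
  have h2 := Finset.card_le_card h1
  rw [hx.2] at h2
  have h3 := Finset.card_union_le (tt a b (T ∪ S) x ∩ tt a b (T ∪ S) z)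
    (((tt a b (T ∪ S) x \ T).filter fun i => l i < τ) ∪
        ((tt a b (T ∪ S) x \ T).filter fun i => τ ≤ l i ∧ a i ⬝ᵥ z < b i))
  have h4 := Finset.card_union_le ((tt a b (T ∪ S) x \ T).filter fun i => l i < τ)
    ((tt a b (T ∪ S) x \ T).filter fun i => τ ≤ l i ∧ a i ⬝ᵥ z < b i)
  omega

/-- Small steps. -/
theorem exists_small {κ : Type} (F : Finset κ) (f g : κ → ℝ) (h : ∀ i ∈ F, 0 < f i) :
    ∃ s : ℝ, 0 < s ∧ s ≤ 1 ∧ ∀ i ∈ F, ∀ t : ℝ, 0 ≤ t → t ≤ s → t * g i ≤ f i := by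
  classical
  induction F using Finset.induction_on with
  | empty => exact ⟨1, one_pos, le_rfl, by simp⟩
  | insert j F hj ih =>
    obtain ⟨s, hs0, hs1, hs⟩ := ih fun i hi => h i (Finset.mem_insert_of_mem hi)
    have hfj := h j (Finset.mem_insert_self _ _)
    have hg : 0 < |g j| + 1 := by positivity
    have hq : 0 < f j / (|g j| + 1) := div_pos hfj hg
    refine ⟨min s (f j / (|g j| + 1)), lt_min hs0 hq, (min_le_left _ _).trans hs1, ?_⟩
    intro i hi t ht0 ht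
    rcases Finset.mem_insert.1 hi with rfl | hi
    · have h1 : t ≤ f i / (|g i| + 1) := ht.trans (min_le_right _ _)
      rw [le_div_iff₀ hg] at h1
      have h2 : t * g i ≤ t * (|g i| + 1) :=
        mul_le_mul_of_nonneg_left (by have := le_abs_self (g i); linarith) ht0
      linarith
    · exact hs i hi t ht0 (ht.trans (min_le_left _ _))

omit [Fintype ι] in
/-- Deleting rows that are not tight keeps the optimum. -/
theorem opt_delete {a : ι → Fin n → ℝ} {b : ι → ℝ} {T S F : Finset ι} {c z : Fin n → ℝ}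
    (hz : IsOpt a b T S c z) (hF : ∀ i ∈ F, a i ⬝ᵥ z < b i) :
    IsOpt a b T (S \ F) c z := by
  refine ⟨⟨hz.1.1, fun i hi => hz.1.2 i (Finset.mem_sdiff.1 hi).1⟩, fun y hy => ?_⟩
  by_contra hcon
  push Not at hcon
  obtain ⟨s, hs0, hs1, hs⟩ := exists_small F (fun i => b i - a i ⬝ᵥ z)
    (fun i => a i ⬝ᵥ (y - z)) (fun i hi => by have := hF i hi; linarith)
  have hP : z + s • (y - z) ∈ Pol a b T S := by
    refine ⟨fun i hi => ?_, fun i hi => ?_⟩
    · rw [dotProduct_add, dotProduct_smul, dotProduct_sub, hy.1 i hi, hz.1.1 i hi, sub_self,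
        smul_zero, add_zero]
    · rw [dotProduct_add, dotProduct_smul, smul_eq_mul]
      by_cases hiF : i ∈ F
      · have := hs i hiF s hs0.le le_rfl
        linarith
      · have h1 := hy.2 i (Finset.mem_sdiff.2 ⟨hi, hiF⟩)
        have h2 := hz.1.2 i hi
        rw [dotProduct_sub]
        nlinarith
  have h1 := hz.2 _ hP
  rw [dotProduct_add, dotProduct_smul, smul_eq_mul, dotProduct_sub] at h1
  have h2 : 0 < s * (c ⬝ᵥ y - c ⬝ᵥ z) := mul_pos hs0 (by linarith)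
  linarith

omit [Fintype ι] [DecidableEq ι] in
/-- An optimum stays optimal in a smaller polyhedron that contains it. -/
theorem opt_sub {a a' : ι → Fin n → ℝ} {b b' : ι → ℝ} {T S T' S' : Finset ι} {c z : Fin n → ℝ}
    (hz : IsOpt a b T S c z) (hz' : z ∈ Pol a' b' T' S')
    (hsub : Pol a' b' T' S' ⊆ Pol a b T S) : IsOpt a' b' T' S' c z :=
  ⟨hz', fun y hy => hz.2 y (hsub hy)⟩

omit [Fintype ι] in
/-- Adding a combination of rows of `I` to the objective moves exactly these multipliers. -/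
theorem mult_shift {a : ι → Fin n → ℝ} {I D : Finset ι} {c : Fin n → ℝ} {l : ι → ℝ}
    (h : IsMult a I c l) (hD : D ⊆ I) (t : ι → ℝ) :
    IsMult a I (c + ∑ r ∈ D, t r • a r) (fun i => l i + if i ∈ D then t i else 0) := by
  unfold IsMult at h ⊢
  simp only [add_smul, Finset.sum_add_distrib]
  rw [← h]
  congr 1
  rw [← Finset.sum_subset hD (f := fun i => (if i ∈ D then t i else 0) • a i)]
  · refine Finset.sum_congr rfl fun i hi => ?_
    rw [if_pos hi]
  · intro i _ hi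
    rw [if_neg hi, zero_smul]

/-- A nonempty bounded polyhedron has an optimal vertex. -/
theorem exists_opt {a : ι → Fin n → ℝ} {b : ι → ℝ} {T0 : Finset ι} (hG : GP a b T0)
    {T S : Finset ι} (hT0 : T0 ⊆ T) (hne : (Pol a b T S).Nonempty)
    (hbd : Bornology.IsBounded (Pol a b T S)) (c : Fin n → ℝ) :
    ∃ x, Vert a b T S x ∧ IsOpt a b T S c x := by
  have hcl : IsClosed (Pol a b T S) := by
    have h1 : Pol a b T S = (⋂ i ∈ T, {x | a i ⬝ᵥ x = b i}) ∩ ⋂ i ∈ S, {x | a i ⬝ᵥ x ≤ b i} := by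
      ext x
      simp [Pol]
    rw [h1]
    refine IsClosed.inter ?_ ?_
    · exact isClosed_biInter fun i _ => isClosed_eq (by fun_prop) (by fun_prop)
    · exact isClosed_biInter fun i _ => isClosed_le (by fun_prop) (by fun_prop)
  have hcomp : IsCompact (Pol a b T S) := Metric.isCompact_of_isClosed_isBounded hcl hbd
  have hcont : Continuous fun x : Fin n → ℝ => c ⬝ᵥ x := by fun_prop
  obtain ⟨x0, hx0, hmax0⟩ := hcomp.exists_isMaxOn hne hcont.continuousOn
  have hopt0 : IsOpt a b T S c x0 := ⟨hx0, fun z hz => hmax0 hz⟩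
  -- among the optimal points take one with the largest number of tight rows
  obtain ⟨N, hN1, hN2⟩ : ∃ N : ℕ, (∃ x, IsOpt a b T S c x ∧ (tt a b (T ∪ S) x).card = N) ∧
      ∀ x, IsOpt a b T S c x → (tt a b (T ∪ S) x).card ≤ N := by
    classical
    have hb : ∀ x, IsOpt a b T S c x → (tt a b (T ∪ S) x).card ≤ n := by
      intro x hx
      refine (Finset.card_le_card ?_).trans (hG.al x fun i hi => hx.1.1 i (hT0 hi))
      intro i hi
      rw [mem_tt] at hi ⊢
      exact ⟨Finset.mem_univ _, hi.2⟩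
    let Q : ℕ → Prop := fun k => ∃ x, IsOpt a b T S c x ∧ (tt a b (T ∪ S) x).card = k
    have hQ : ∃ k, k ≤ n ∧ Q k := ⟨_, hb x0 hopt0, x0, hopt0, rfl⟩
    obtain ⟨k, hk, hQk⟩ := hQ
    refine ⟨Nat.findGreatest Q n, Nat.findGreatest_spec hk hQk, fun x hx => ?_⟩
    exact Nat.le_findGreatest (hb x hx) ⟨x, hx, rfl⟩
  obtain ⟨x, hx, hxN⟩ := hN1
  refine ⟨x, ⟨hx.1, ?_⟩, hx⟩
  have hle : (tt a b (T ∪ S) x).card ≤ n := by
    refine (Finset.card_le_card ?_).trans (hG.al x fun i hi => hx.1.1 i (hT0 hi))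
    intro i hi
    rw [mem_tt] at hi ⊢
    exact ⟨Finset.mem_univ _, hi.2⟩
  by_contra hne'
  have hlt : (tt a b (T ∪ S) x).card < n := lt_of_le_of_ne hle hne'
  obtain ⟨u, hu0, hu⟩ := exists_orth a hlt
  have hTu : ∀ i ∈ T, a i ⬝ᵥ u = 0 := fun i hi =>
    hu i (mem_tt.2 ⟨Finset.mem_union_left _ hi, hx.1.1 i hi⟩)
  have hstrict : ∀ i ∈ S, i ∉ tt a b (T ∪ S) x → a i ⬝ᵥ x < b i := by
    intro i hi hit
    refine lt_of_le_of_ne (hx.1.2 i hi) fun h => hit ?_
    exact mem_tt.2 ⟨Finset.mem_union_right _ hi, h⟩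
  -- moving both ways
  have key : ∀ v : Fin n → ℝ, (∀ i ∈ tt a b (T ∪ S) x, a i ⬝ᵥ v = 0) →
      ∃ s : ℝ, 0 < s ∧ x + s • v ∈ Pol a b T S := by
    intro v hv
    obtain ⟨s, hs0, hs1, hs⟩ := exists_small (S \ tt a b (T ∪ S) x) (fun i => b i - a i ⬝ᵥ x)
      (fun i => a i ⬝ᵥ v) (fun i hi => by
        have := hstrict i (Finset.mem_sdiff.1 hi).1 (Finset.mem_sdiff.1 hi).2
        linarith)
    refine ⟨s, hs0, fun i hi => ?_, fun i hi => ?_⟩
    · rw [dotProduct_add, dotProduct_smul,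
        hv i (mem_tt.2 ⟨Finset.mem_union_left _ hi, hx.1.1 i hi⟩), smul_zero, add_zero]
      exact hx.1.1 i hi
    · rw [dotProduct_add, dotProduct_smul, smul_eq_mul]
      by_cases hit : i ∈ tt a b (T ∪ S) x
      · rw [hv i hit, mul_zero, add_zero]
        exact hx.1.2 i hi
      · have := hs i (Finset.mem_sdiff.2 ⟨hi, hit⟩) s hs0.le le_rfl
        linarith
  have hcu : c ⬝ᵥ u = 0 := by
    obtain ⟨s, hs0, hs⟩ := key u hu
    obtain ⟨s', hs0', hs'⟩ := key (-u) (fun i hi => by rw [dotProduct_neg, hu i hi, neg_zero])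
    have h1 := hx.2 _ hs
    have h2 := hx.2 _ hs'
    rw [dotProduct_add, dotProduct_smul, smul_eq_mul] at h1 h2
    rw [dotProduct_neg] at h2
    have h3 : s * (c ⬝ᵥ u) ≤ 0 := by linarith
    have h4 : 0 ≤ s' * (c ⬝ᵥ u) := by linarith
    refine le_antisymm ?_ ?_
    · exact nonpos_of_mul_nonpos_right h3 hs0
    · exact nonneg_of_mul_nonneg_right h4 hs0'
  -- some row is hit in direction `u`
  obtain ⟨k, hkS, hkt, hku⟩ : ∃ k ∈ S, k ∉ tt a b (T ∪ S) x ∧ 0 < a k ⬝ᵥ u := by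
    by_contra hcon
    push Not at hcon
    have hray : ∀ τ : ℝ, 0 ≤ τ → x + τ • u ∈ Pol a b T S := by
      intro τ hτ
      refine ⟨fun i hi => ?_, fun i hi => ?_⟩
      · rw [dotProduct_add, dotProduct_smul, hTu i hi, smul_zero, add_zero]
        exact hx.1.1 i hi
      · rw [dotProduct_add, dotProduct_smul, smul_eq_mul]
        have h1 := hx.1.2 i hi
        by_cases hit : i ∈ tt a b (T ∪ S) x
        · rw [hu i hit, mul_zero, add_zero]
          exact h1
        · have := mul_nonpos_of_nonneg_of_nonpos hτ (hcon i hi hit)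
          linarith
    obtain ⟨R, hR⟩ := hbd.exists_norm_le
    have hun : 0 < ‖u‖ := norm_pos_iff.2 hu0
    have hR0 : 0 ≤ R := (norm_nonneg _).trans (hR x hx.1)
    have h1 := hR _ (hray ((2 * R + 1) / ‖u‖) (by positivity))
    have h2 : ‖((2 * R + 1) / ‖u‖) • u‖ = 2 * R + 1 := by
      rw [norm_smul, Real.norm_eq_abs, abs_of_nonneg (by positivity), div_mul_cancel₀ _ hun.ne']
    have h3 := hR x hx.1
    have h4 : ‖((2 * R + 1) / ‖u‖) • u‖ ≤ ‖x + ((2 * R + 1) / ‖u‖) • u‖ + ‖x‖ := by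
      have := norm_sub_le (x + ((2 * R + 1) / ‖u‖) • u) x
      rwa [add_sub_cancel_left] at this
    linarith
  let K : Finset ι := S.filter fun l => l ∉ tt a b (T ∪ S) x ∧ 0 < a l ⬝ᵥ u
  have hK : ∀ l, l ∈ K ↔ l ∈ S ∧ l ∉ tt a b (T ∪ S) x ∧ 0 < a l ⬝ᵥ u := fun l =>
    Finset.mem_filter
  obtain ⟨j, hjK, hmin⟩ := Finset.exists_min_image K
    (fun l => (b l - a l ⬝ᵥ x) / (a l ⬝ᵥ u)) ⟨k, (hK k).2 ⟨hkS, hkt, hku⟩⟩
  obtain ⟨hjS, hjt, hju⟩ := (hK j).1 hjK
  have hjx := hstrict j hjS hjt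
  set s : ℝ := (b j - a j ⬝ᵥ x) / (a j ⬝ᵥ u) with hs
  have hs0 : 0 < s := div_pos (by linarith) hju
  have hP : x + s • u ∈ Pol a b T S := by
    refine ⟨fun i hi => ?_, fun i hi => ?_⟩
    · rw [dotProduct_add, dotProduct_smul, hTu i hi, smul_zero, add_zero]
      exact hx.1.1 i hi
    · rw [dotProduct_add, dotProduct_smul, smul_eq_mul]
      have h1 := hx.1.2 i hi
      by_cases hit : i ∈ tt a b (T ∪ S) x
      · rw [hu i hit, mul_zero, add_zero]
        exact h1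
      · rcases le_or_gt (a i ⬝ᵥ u) 0 with h3 | h3
        · have := mul_nonpos_of_nonneg_of_nonpos hs0.le h3
          linarith
        · have h4 : s ≤ (b i - a i ⬝ᵥ x) / (a i ⬝ᵥ u) := hmin i ((hK i).2 ⟨hi, hit, h3⟩)
          rw [le_div_iff₀ h3] at h4
          linarith
  have hopt : IsOpt a b T S c (x + s • u) := by
    refine ⟨hP, fun z hz => ?_⟩
    rw [dotProduct_add, dotProduct_smul, hcu, smul_zero, add_zero]
    exact hx.2 z hz
  have hsub : insert j (tt a b (T ∪ S) x) ⊆ tt a b (T ∪ S) (x + s • u) := by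
    intro i hi
    rcases Finset.mem_insert.1 hi with rfl | hi
    · refine mem_tt.2 ⟨Finset.mem_union_right _ hjS, ?_⟩
      rw [dotProduct_add, dotProduct_smul, smul_eq_mul, hs, div_mul_cancel₀ _ hju.ne']
      ring
    · refine mem_tt.2 ⟨(mem_tt.1 hi).1, ?_⟩
      rw [dotProduct_add, dotProduct_smul, hu i hi, smul_zero, add_zero]
      exact (mem_tt.1 hi).2
  have h1 := Finset.card_le_card hsub
  rw [Finset.card_insert_of_notMem hjt] at h1
  have h2 := hN2 _ hopt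
  omega

end Pool.Agent.Lib.S3.Geo
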